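import Mathlib

/-! Project NK (helper875): statements of the parts. -/

namespace W875.NK

/-- Part A. -/
def PartA : Prop :=
  ∀ (L : Type) [Field L] [Algebra (RatFunc (ZMod 3)) L] [FiniteDimensional (RatFunc (ZMod 3)) L]
    (x y z : L),
    x ^ 3 + algebraMap (RatFunc (ZMod 3)) L RatFunc.X * y ^ 3
      + algebraMap (RatFunc (ZMod 3)) L RatFunc.X ^ 2 * z ^ 3
      + algebraMap (RatFunc (ZMod 3)) L RatFunc.X * (x * y * z) = 0 →
    ¬ (x = 0 ∧ y = 0 ∧ z = 0) → 3 ∣ Module.finrank (RatFunc (ZMod 3)) L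

/-- Part B. -/
def PartB : Prop :=
  ∀ (k : Type) [Field k] (t : k)
    (_ : ∀ (L : Type) [Field L] [Algebra k L] [FiniteDimensional k L] (x y z : L),
      x ^ 3 + algebraMap k L t * y ^ 3 + algebraMap k L t ^ 2 * z ^ 3
        + algebraMap k L t * (x * y * z) = 0 →
      ¬ (x = 0 ∧ y = 0 ∧ z = 0) → 3 ∣ Module.finrank k L)
    (V : Type) [AddCommGroup V] [Module k V] [FiniteDimensional k V]
    (a b c : Module.End k V) (_ : a * b = b * a) (_ : a * c = c * a) (_ : b * c = c * b)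
    (_ : a ^ 3 + t • b ^ 3 + t ^ 2 • c ^ 3 + t • (a * b * c) = 0)
    (_ : b = 1 ∨ c = 1),
    3 ∣ Module.finrank k V


/-- Part C: the ascending chain condition for graded submodules of a graded module over
`k[x, y, z]` generated in degree `0`. -/
def PartC : Prop :=
  ∀ (k : Type) [Field k] (M : ℕ → Type) [∀ n, AddCommGroup (M n)] [∀ n, Module k (M n)]
    [∀ n, FiniteDimensional k (M n)] (x y z : ∀ n, M n →ₗ[k] M (n + 1))
    (_ : ∀ n m, x (n + 1) (y n m) = y (n + 1) (x n m))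
    (_ : ∀ n m, x (n + 1) (z n m) = z (n + 1) (x n m))
    (_ : ∀ n m, y (n + 1) (z n m) = z (n + 1) (y n m))
    (_ : ∀ n, LinearMap.range (x n) ⊔ LinearMap.range (y n) ⊔ LinearMap.range (z n) = ⊤)
    (K : ℕ → ∀ n, Submodule k (M n)) (_ : ∀ j n, K j n ≤ K (j + 1) n)
    (_ : ∀ j n, (K j n).map (x n) ≤ K j (n + 1)) (_ : ∀ j n, (K j n).map (y n) ≤ K j (n + 1))
    (_ : ∀ j n, (K j n).map (z n) ≤ K j (n + 1)),
    ∃ J, ∀ j, J ≤ j → ∀ n, K j n = K J n

end W875.NK
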