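import Pool.Agent.W875.NK.Conv

/-! # The statements on the cubic over `𝔽₃(t)` -/

set_option autoImplicit false

namespace W875.NK.St

open CategoryTheory MonoidalCategory

/-- The plane cubic `x³ + t y³ + t² z³ + t x y z` over `𝔽₃(t)`. -/
noncomputable def poly : MvPolynomial (Fin 3) k₃ := form t₃ MvPolynomial.X

/-- The value of a polynomial at a point with coordinates in a field `L` over `𝔽₃(t)`. -/
noncomputable def value {L : Type} [Field L] [Algebra k₃ L] (v : Fin 3 → L)
    (p : MvPolynomial (Fin 3) k₃) : L := MvPolynomial.aeval v p

/-- The cubic is smooth: at a nonzero point of the cubic with coordinates in any field over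
`𝔽₃(t)`, the partial derivatives of the cubic do not all vanish. -/
def Smooth : Prop :=
  ∀ (L : Type) [Field L] [Algebra k₃ L] (v : Fin 3 → L), v ≠ 0 → value v poly = 0 →
    ∃ i, value v (MvPolynomial.pderiv i poly) ≠ 0

/-- The residue fields of the closed points of the cubic have degree divisible by `3`: every
finite extension of `𝔽₃(t)` over which the cubic has a point has degree divisible by `3`. -/
def PointsThree : Prop :=
  ∀ (L : Type) [Field L] [Algebra k₃ L] [FiniteDimensional k₃ L] (v : Fin 3 → L), v ≠ 0 →
    value v poly = 0 → 3 ∣ Module.finrank k₃ L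

/-- The Euler characteristics of all coherent sheaves on the cubic are divisible by `3`. -/
def EulerThree : Prop := ∀ N : Mod t₃, ∃ c : ℤ, 3 ∣ c ∧ IsChi N.D c

universe v u

/-- `A` is an object with dual `B` of a preadditive symmetric monoidal category, such that the
endomorphisms of `A` are generated by the classes `cls E` of the members `E` of a set `S` of
coherent sheaves on `C × C`, and the trace of `cls E` is the Euler characteristic of the
restriction of `E` to the diagonal. -/
structure IsMotive {𝒩 : Type u} [Category.{v} 𝒩] [MonoidalCategory 𝒩] [SymmetricCategory 𝒩]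
    [Preadditive 𝒩] (A B : 𝒩) [ExactPairing A B] (S : Set (BiMod t₃))
    (cls : BiMod t₃ → (A ⟶ A)) : Prop where
  closure : AddSubgroup.closure (cls '' S) = ⊤
  trace : ∀ E ∈ S, ∀ c : ℤ, IsChi E.diag c → trace A B (cls E) = c • 𝟙 (𝟙_ 𝒩)

theorem smoothC : Smooth := by
  intro L _ _ v hv h
  have hcub : cubic = poly := by
    simp only [cubic, poly, form, MvPolynomial.smul_eq_C_mul]
  by_contra hd
  push Not at hd
  exact hv (smooth L v (by rw [hcub]; exact h) (fun i => by rw [hcub]; exact hd i))

theorem pointsThree : PointsThree := by
  intro L _ _ _ v hv h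
  have hcub : cubic = poly := by
    simp only [cubic, poly, form, MvPolynomial.smul_eq_C_mul]
  exact index_three L v hv (by rw [hcub]; exact h)

theorem eulerThree : EulerThree := fun N => N.chi

end W875.NK.St
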