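import Pool.Agent.W875.NK.Defs

/-! # Bigraded modules: coherent sheaves on `C × C`, and their restriction to the diagonal -/

namespace W875.NK

open scoped DirectSum

variable {k : Type} [Field k] {t : k}

/-- A graded module from commuting operators on a vector space. -/
def GrMod.ofOps (T : Type) [AddCommGroup T] [Module k T] (X : Fin 3 → Module.End k T)
    (hX : ∀ i j v, X i (X j v) = X j (X i v))
    (hF : ∀ v, X 0 (X 0 (X 0 v)) + t • X 1 (X 1 (X 1 v)) + t ^ 2 • X 2 (X 2 (X 2 v))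
      + t • X 0 (X 1 (X 2 v)) = 0)
    (D : ℕ → Submodule k T) (hfin : ∀ n, FiniteDimensional k (D n))
    (hD : ∀ n i v, v ∈ D n → X i v ∈ D (n + 1))
    (hgen : ∃ N, ∀ n, N ≤ n →
      D (n + 1) ≤ (D n).map (X 0) ⊔ (D n).map (X 1) ⊔ (D n).map (X 2)) : GrMod k t where
  M n := D n
  x n := (X 0).restrict (hD n 0)
  y n := (X 1).restrict (hD n 1)
  z n := (X 2).restrict (hD n 2)
  xy n m := Subtype.ext (hX 0 1 m.1)
  xz n m := Subtype.ext (hX 0 2 m.1)
  yz n m := Subtype.ext (hX 1 2 m.1)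
  eqn n m := Subtype.ext (hF m.1)
  gen := by
    obtain ⟨N, h⟩ := hgen
    refine ⟨N, fun n hn => ?_⟩
    rw [eq_top_iff]
    rintro ⟨m, hm⟩ -
    obtain ⟨a, ha, c, hc, rfl⟩ := Submodule.mem_sup.1 (h n hn hm)
    obtain ⟨a, ha', b, hb, rfl⟩ := Submodule.mem_sup.1 ha
    obtain ⟨a, ha1, rfl⟩ := ha'
    obtain ⟨b, hb1, rfl⟩ := hb
    obtain ⟨c, hc1, rfl⟩ := hc
    exact Submodule.mem_sup.2 ⟨_, Submodule.mem_sup.2 ⟨_, ⟨⟨a, ha1⟩, rfl⟩, _, ⟨⟨b, hb1⟩, rfl⟩,
      rfl⟩, _, ⟨⟨c, hc1⟩, rfl⟩, rfl⟩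

/-- A finitely generated bigraded module over `S ⊗ S`, `S` the homogeneous coordinate ring of
the plane cubic `C`: it presents a coherent sheaf on `C × C`. -/
structure BiMod (k : Type) [Field k] (t : k) where
  /-- the bihomogeneous pieces -/
  M : ℕ → ℕ → Type
  [acg : ∀ a b, AddCommGroup (M a b)]
  [mod : ∀ a b, Module k (M a b)]
  [fin : ∀ a b, FiniteDimensional k (M a b)]
  /-- multiplication by the coordinates of the first factor -/
  l : Fin 3 → ∀ a b, M a b →ₗ[k] M (a + 1) b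
  /-- multiplication by the coordinates of the second factor -/
  r : Fin 3 → ∀ a b, M a b →ₗ[k] M a (b + 1)
  ll : ∀ i j a b m, l i (a + 1) b (l j a b m) = l j (a + 1) b (l i a b m)
  rr : ∀ i j a b m, r i a (b + 1) (r j a b m) = r j a (b + 1) (r i a b m)
  lr : ∀ i j a b m, l i a (b + 1) (r j a b m) = r j (a + 1) b (l i a b m)
  leqn : ∀ a b m, l 0 (a + 2) b (l 0 (a + 1) b (l 0 a b m))
    + t • l 1 (a + 2) b (l 1 (a + 1) b (l 1 a b m))
    + t ^ 2 • l 2 (a + 2) b (l 2 (a + 1) b (l 2 a b m))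
    + t • l 0 (a + 2) b (l 1 (a + 1) b (l 2 a b m)) = 0
  reqn : ∀ a b m, r 0 a (b + 2) (r 0 a (b + 1) (r 0 a b m))
    + t • r 1 a (b + 2) (r 1 a (b + 1) (r 1 a b m))
    + t ^ 2 • r 2 a (b + 2) (r 2 a (b + 1) (r 2 a b m))
    + t • r 0 a (b + 2) (r 1 a (b + 1) (r 2 a b m)) = 0
  lgen : ∃ N, ∀ a b, N ≤ a → ⨆ i, LinearMap.range (l i a b) = ⊤
  rgen : ∃ N, ∀ a b, N ≤ b → ⨆ i, LinearMap.range (r i a b) = ⊤

attribute [instance] BiMod.acg BiMod.mod BiMod.fin

namespace BiMod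

variable (E : BiMod k t)

/-- The pieces, indexed by pairs. -/
def Pc (p : ℕ × ℕ) : Type := E.M p.1 p.2

instance (p : ℕ × ℕ) : AddCommGroup (E.Pc p) := E.acg p.1 p.2

instance (p : ℕ × ℕ) : Module k (E.Pc p) := E.mod p.1 p.2

/-- The direct sum of all pieces. -/
abbrev Tot : Type := ⨁ p : ℕ × ℕ, E.Pc p

/-- The inclusion of a piece. -/
noncomputable def ι (a b : ℕ) : E.M a b →ₗ[k] E.Tot :=
  DirectSum.lof k (ℕ × ℕ) E.Pc (a, b)

/-- The operator given by a family of maps on the pieces. -/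
noncomputable def opOf (f : ∀ p, E.Pc p →ₗ[k] E.Tot) : Module.End k E.Tot :=
  DirectSum.toModule k (ℕ × ℕ) E.Tot f

theorem opOf_ι (f : ∀ p, E.Pc p →ₗ[k] E.Tot) (a b : ℕ) (m : E.M a b) :
    E.opOf f (E.ι a b m) = f (a, b) m := by
  unfold opOf ι
  exact DirectSum.toModule_lof (M := E.Pc) k (a, b) (show E.Pc (a, b) from m)

/-- Multiplication by a coordinate of the first factor. -/
noncomputable def L (i : Fin 3) : Module.End k E.Tot :=
  E.opOf fun p => E.ι (p.1 + 1) p.2 ∘ₗ E.l i p.1 p.2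

/-- Multiplication by a coordinate of the second factor. -/
noncomputable def R (i : Fin 3) : Module.End k E.Tot :=
  E.opOf fun p => E.ι p.1 (p.2 + 1) ∘ₗ E.r i p.1 p.2

theorem L_ι (i : Fin 3) (a b : ℕ) (m : E.M a b) : E.L i (E.ι a b m) = E.ι (a + 1) b (E.l i a b m) :=
  E.opOf_ι _ a b m

theorem R_ι (i : Fin 3) (a b : ℕ) (m : E.M a b) : E.R i (E.ι a b m) = E.ι a (b + 1) (E.r i a b m) :=
  E.opOf_ι _ a b m

theorem ext_ι {W : Type} [AddCommGroup W] [Module k W] {f g : E.Tot →ₗ[k] W}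
    (h : ∀ a b m, f (E.ι a b m) = g (E.ι a b m)) (v : E.Tot) : f v = g v := by
  have : f = g := DirectSum.linearMap_ext k fun p => LinearMap.ext fun m => h p.1 p.2 m
  rw [this]

theorem LL (i j : Fin 3) (v : E.Tot) : E.L i (E.L j v) = E.L j (E.L i v) :=
  E.ext_ι (f := E.L i ∘ₗ E.L j) (g := E.L j ∘ₗ E.L i) (fun a b m => by
    simp only [LinearMap.comp_apply, L_ι, E.ll i j]) v

theorem LR (i j : Fin 3) (v : E.Tot) : E.L i (E.R j v) = E.R j (E.L i v) :=
  E.ext_ι (f := E.L i ∘ₗ E.R j) (g := E.R j ∘ₗ E.L i) (fun a b m => by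
    simp only [LinearMap.comp_apply, L_ι, R_ι, E.lr i j]) v

theorem Leqn (v : E.Tot) : E.L 0 (E.L 0 (E.L 0 v)) + t • E.L 1 (E.L 1 (E.L 1 v))
    + t ^ 2 • E.L 2 (E.L 2 (E.L 2 v)) + t • E.L 0 (E.L 1 (E.L 2 v)) = 0 :=
  E.ext_ι (f := E.L 0 ∘ₗ E.L 0 ∘ₗ E.L 0 + t • (E.L 1 ∘ₗ E.L 1 ∘ₗ E.L 1)
    + t ^ 2 • (E.L 2 ∘ₗ E.L 2 ∘ₗ E.L 2) + t • (E.L 0 ∘ₗ E.L 1 ∘ₗ E.L 2)) (g := 0) (fun a b m => by
    simp only [LinearMap.comp_apply, LinearMap.add_apply, LinearMap.smul_apply, L_ι,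
      LinearMap.zero_apply]
    have h := congrArg (E.ι (a + 3) b) (E.leqn a b m)
    rw [map_add, map_add, map_add, map_smul, map_smul, map_smul, map_zero] at h
    exact h) v

/-- The relations `x m = x' m` defining the restriction to the diagonal. -/
noncomputable def rel : Submodule k E.Tot := ⨆ i, LinearMap.range (E.L i - E.R i)

theorem rel_stable (i : Fin 3) : E.rel ≤ E.rel.comap (E.L i) := by
  refine iSup_le fun j => ?_
  rintro _ ⟨v, rfl⟩
  refine Submodule.mem_iSup_of_mem j ⟨E.L i v, ?_⟩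
  rw [LinearMap.sub_apply, LinearMap.sub_apply, map_sub, E.LL i j, E.LR i j]

/-- Multiplication by a coordinate on the restriction to the diagonal. -/
noncomputable def Lq (i : Fin 3) : Module.End k (E.Tot ⧸ E.rel) :=
  E.rel.mapQ E.rel (E.L i) (E.rel_stable i)

/-- The part of total degree `n`. -/
noncomputable def G (n : ℕ) : Submodule k E.Tot :=
  ⨆ p : Fin (n + 1), LinearMap.range (E.ι p.1 (n - p.1))

/-- The part of degree `n` of the restriction to the diagonal. -/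
noncomputable def D (n : ℕ) : Submodule k (E.Tot ⧸ E.rel) := (E.G n).map E.rel.mkQ

theorem ι_mem_G (a b : ℕ) (m : E.M a b) : E.ι a b m ∈ E.G (a + b) := by
  refine Submodule.mem_iSup_of_mem (⟨a, by omega⟩ : Fin (a + b + 1)) ?_
  have : a + b - a = b := by omega
  change _ ∈ LinearMap.range (E.ι a (a + b - a))
  rw [this]
  exact ⟨m, rfl⟩

theorem G_le {n : ℕ} {W : Submodule k E.Tot}
    (h : ∀ a b, a + b = n → ∀ m, E.ι a b m ∈ W) : E.G n ≤ W := by
  refine iSup_le fun p => ?_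
  rintro _ ⟨m, rfl⟩
  exact h _ _ (by omega) m

theorem L_mem_G (i : Fin 3) (n : ℕ) : E.G n ≤ (E.G (n + 1)).comap (E.L i) := by
  refine E.G_le fun a b hab m => ?_
  rw [Submodule.mem_comap, E.L_ι]
  have := E.ι_mem_G (a + 1) b (E.l i a b m)
  rwa [show a + 1 + b = n + 1 by omega] at this

theorem D_gen : ∃ N, ∀ n, N ≤ n →
    E.D (n + 1) ≤ (E.D n).map (E.Lq 0) ⊔ (E.D n).map (E.Lq 1) ⊔ (E.D n).map (E.Lq 2) := by
  obtain ⟨N₁, h₁⟩ := E.lgen
  obtain ⟨N₂, h₂⟩ := E.rgen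
  refine ⟨N₁ + N₂ + 1, fun n hn => ?_⟩
  have hle : ⨆ i : Fin 3, (E.D n).map (E.Lq i) ≤
      (E.D n).map (E.Lq 0) ⊔ (E.D n).map (E.Lq 1) ⊔ (E.D n).map (E.Lq 2) := by
    refine iSup_le fun i => ?_
    fin_cases i
    · exact le_sup_of_le_left le_sup_left
    · exact le_sup_of_le_left le_sup_right
    · exact le_sup_right
  refine le_trans ?_ hle
  rw [D, Submodule.map_le_iff_le_comap]
  refine E.G_le fun a b hab m => ?_
  by_cases ha : N₁ + 1 ≤ a
  · obtain ⟨a, rfl⟩ := Nat.exists_eq_add_of_le' (show 1 ≤ a by omega)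
    have hm : m ∈ ⨆ i, LinearMap.range (E.l i a b) := by rw [h₁ a b (by omega)]; trivial
    have : (⨆ i, LinearMap.range (E.l i a b)) ≤ ((⨆ i : Fin 3, (E.D n).map (E.Lq i)).comap
        E.rel.mkQ).comap (E.ι (a + 1) b) := by
      refine iSup_le fun i => ?_
      rintro _ ⟨v, rfl⟩
      refine Submodule.mem_iSup_of_mem i ⟨E.rel.mkQ (E.ι a b v), ⟨_, ?_, rfl⟩, ?_⟩
      · have := E.ι_mem_G a b v
        rwa [show a + b = n by omega] at this
      · rw [← E.L_ι]; rfl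
    exact this hm
  · obtain ⟨b, rfl⟩ := Nat.exists_eq_add_of_le' (show 1 ≤ b by omega)
    have hm : m ∈ ⨆ i, LinearMap.range (E.r i a b) := by rw [h₂ a b (by omega)]; trivial
    have : (⨆ i, LinearMap.range (E.r i a b)) ≤ ((⨆ i : Fin 3, (E.D n).map (E.Lq i)).comap
        E.rel.mkQ).comap (E.ι a (b + 1)) := by
      refine iSup_le fun i => ?_
      rintro _ ⟨v, rfl⟩
      refine Submodule.mem_iSup_of_mem i ⟨E.rel.mkQ (E.ι a b v), ⟨_, ?_, rfl⟩, ?_⟩
      · have := E.ι_mem_G a b v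
        rwa [show a + b = n by omega] at this
      · rw [← E.R_ι]
        change E.rel.mkQ (E.L i (E.ι a b v)) = E.rel.mkQ (E.R i (E.ι a b v))
        rw [← sub_eq_zero, ← map_sub, Submodule.mkQ_apply, Submodule.Quotient.mk_eq_zero]
        exact Submodule.mem_iSup_of_mem i ⟨_, rfl⟩
    exact this hm

/-- The restriction of a coherent sheaf on `C × C` to the diagonal. -/
noncomputable def diag : GrMod k t :=
  GrMod.ofOps (E.Tot ⧸ E.rel) E.Lq
    (fun i j v => by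
      obtain ⟨v, rfl⟩ := Submodule.mkQ_surjective _ v
      exact congrArg E.rel.mkQ (E.LL i j v))
    (fun v => by
      obtain ⟨v, rfl⟩ := Submodule.mkQ_surjective _ v
      exact (congrArg E.rel.mkQ (E.Leqn v)).trans (map_zero _))
    E.D
    (fun n => by
      unfold D G
      infer_instance)
    (fun n i v hv => by
      obtain ⟨v, hv, rfl⟩ := hv
      exact ⟨E.L i v, E.L_mem_G i n hv, rfl⟩)
    E.D_gen

end BiMod

end W875.NK
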