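import Mathlib

/-! # The supertrace of an endomorphism under a symmetric monoidal functor to super vector
spaces -/

namespace W875.NK

open CategoryTheory MonoidalCategory

section core

open TensorProduct

variable {K : Type} [Field K] {V V' : Type} [AddCommGroup V] [Module K V]
  [AddCommGroup V'] [Module K V'] (e : V' →ₗ[K] V →ₗ[K] K)

/-- `a ⊗ b ↦ (v ↦ e(b, v) a)`. -/
noncomputable def act : V ⊗[K] V' →ₗ[K] Module.End K V :=
  TensorProduct.lift (LinearMap.mk₂ K (fun a b => (e b).smulRight a)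
    (fun a a' b => LinearMap.ext fun v => by simp)
    (fun c a b => LinearMap.ext fun v => by simp [smul_smul, mul_comm])
    (fun a b b' => LinearMap.ext fun v => by simp [add_smul])
    (fun c a b => LinearMap.ext fun v => by simp [smul_smul]))

theorem act_tmul (a : V) (b : V') (v : V) : act e (a ⊗ₜ b) v = e b v • a := by
  simp [act]

/-- `a ⊗ b ↦ e(b, g a)`. -/
noncomputable def con (g : Module.End K V) : V ⊗[K] V' →ₗ[K] K :=
  TensorProduct.lift (LinearMap.mk₂ K (fun a b => e b (g a))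
    (fun a a' b => by simp) (fun c a b => by simp) (fun a b b' => by simp)
    (fun c a b => by simp))

theorem con_tmul (g : Module.End K V) (a : V) (b : V') : con e g (a ⊗ₜ b) = e b (g a) := by
  simp [con]

theorem act_finite (c : V ⊗[K] V') : FiniteDimensional K (LinearMap.range (act e c)) := by
  induction c with
  | zero => rw [map_zero, LinearMap.range_zero]; infer_instance
  | tmul a b =>
    refine Submodule.finiteDimensional_of_le (S₂ := Submodule.span K {a}) ?_
    rintro _ ⟨v, rfl⟩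
    rw [act_tmul]
    exact Submodule.smul_mem _ _ (Submodule.mem_span_singleton_self a)
  | add x y hx hy =>
    rw [map_add]
    refine Submodule.finiteDimensional_of_le
      (S₂ := LinearMap.range (act e x) ⊔ LinearMap.range (act e y)) ?_
    rintro _ ⟨v, rfl⟩
    exact Submodule.add_mem_sup ⟨v, rfl⟩ ⟨v, rfl⟩

theorem finite_of_act {c : V ⊗[K] V'} (h : act e c = 1) : FiniteDimensional K V := by
  have := act_finite e c
  rw [h] at this
  rw [show LinearMap.range (1 : Module.End K V) = ⊤ from LinearMap.range_id] at this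
  exact Module.finite_def.2 ((Submodule.fg_iff_finiteDimensional _).2 this)

theorem con_eq_trace [FiniteDimensional K V] (g : Module.End K V) (c : V ⊗[K] V') :
    con e g c = LinearMap.trace K V (g * act e c) := by
  induction c with
  | zero => simp
  | tmul a b =>
    rw [con_tmul]
    have : g * act e (a ⊗ₜ b) = (e b).smulRight (g a) := by
      ext v
      rw [Module.End.mul_apply, act_tmul, map_smul]
      rfl
    rw [this, LinearMap.trace_smulRight]
  | add x y hx hy => rw [map_add, map_add, mul_add, map_add, hx, hy]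

theorem con_of_act {c : V ⊗[K] V'} (h : act e c = 1) (g : Module.End K V) :
    con e g c = LinearMap.trace K V g := by
  have := finite_of_act e h
  rw [con_eq_trace, h, mul_one]

end core

universe v u

variable (𝒩 : Type u) [Category.{v} 𝒩] [MonoidalCategory 𝒩] [SymmetricCategory 𝒩]
  [Preadditive 𝒩] (K : Type) [Field K]

/-- A symmetric monoidal additive functor to super vector spaces over `K`: a monoidal functor to
vector spaces, all of whose values are split in an even and an odd part (`odd X` is the projector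
onto the odd part, `1 - odd X` the one onto the even part), naturally and compatibly with tensor
products, such that the symmetry goes to the Koszul-signed symmetry
`v ⊗ w ↦ (-1) ^ (|v| |w|) w ⊗ v`. -/
structure SuperFunctor where
  /-- the underlying functor -/
  F : 𝒩 ⥤ ModuleCat.{0} K
  [monoidal : F.Monoidal]
  [additive : F.Additive]
  /-- the projector onto the odd part -/
  odd : ∀ X, Module.End K (F.obj X)
  odd_idem : ∀ X v, odd X (odd X v) = odd X v
  odd_nat : ∀ {X Y : 𝒩} (f : X ⟶ Y) v, odd Y ((F.map f).hom v) = (F.map f).hom (odd X v)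
  odd_unit : ∀ v, odd (𝟙_ 𝒩) v = 0
  odd_tensor : ∀ X Y (v : F.obj X) (w : F.obj Y),
    odd (X ⊗ Y) ((Functor.LaxMonoidal.μ F X Y).hom (v ⊗ₜ[K] w)) =
      (Functor.LaxMonoidal.μ F X Y).hom
        (odd X v ⊗ₜ[K] (w - odd Y w) + (v - odd X v) ⊗ₜ[K] odd Y w)
  braid : ∀ X Y (v : F.obj X) (w : F.obj Y),
    (F.map (β_ X Y).hom).hom ((Functor.LaxMonoidal.μ F X Y).hom (v ⊗ₜ[K] w)) =
      (Functor.LaxMonoidal.μ F Y X).hom (w ⊗ₜ[K] v - (2 : K) • (odd Y w ⊗ₜ[K] odd X v))

attribute [instance] SuperFunctor.monoidal SuperFunctor.additive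

variable {𝒩}

/-- The trace of an endomorphism of an object `A` with a dual `B`. -/
def catTrace (A B : 𝒩) [ExactPairing A B] (f : A ⟶ A) : 𝟙_ 𝒩 ⟶ 𝟙_ 𝒩 :=
  η_ A B ≫ f ▷ B ≫ (β_ A B).hom ≫ ε_ A B

namespace SuperFunctor

variable {K} (ω : SuperFunctor 𝒩 K) (A B : 𝒩) [ExactPairing A B]

/-- the generator of the value at the unit object -/
noncomputable def one : ω.F.obj (𝟙_ 𝒩) := (Functor.LaxMonoidal.ε ω.F).hom (1 : K)

/-- the multiplication map, elementwise -/
noncomputable def m (X Y : 𝒩) (v : ω.F.obj X) (w : ω.F.obj Y) : ω.F.obj (X ⊗ Y) :=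
  (Functor.LaxMonoidal.μ ω.F X Y).hom (v ⊗ₜ[K] w)

/-- the coordinate on the value at the unit object -/
noncomputable def coord : ω.F.obj (𝟙_ 𝒩) →ₗ[K] K := (Functor.OplaxMonoidal.η ω.F).hom

theorem coord_one : ω.coord ω.one = 1 := by
  have h := Functor.Monoidal.ε_η (F := ω.F)
  exact congrArg (fun f => f.hom (1 : K)) h

theorem coord_smul_one (v : ω.F.obj (𝟙_ 𝒩)) : ω.coord v • ω.one = v := by
  have h := Functor.Monoidal.η_ε (F := ω.F)
  have h2 : (Functor.LaxMonoidal.ε ω.F).hom (ω.coord v) = v :=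
    congrArg (fun f => f.hom v) h
  rw [one, ← map_smul, smul_eq_mul, mul_one]
  exact h2

/-- the pairing -/
noncomputable def pair : ω.F.obj B →ₗ[K] ω.F.obj A →ₗ[K] K :=
  TensorProduct.curry (ω.coord ∘ₗ (ω.F.map (ε_ A B)).hom ∘ₗ
    (Functor.LaxMonoidal.μ ω.F B A).hom)

theorem pair_apply (b : ω.F.obj B) (a : ω.F.obj A) :
    ω.pair A B b a = ω.coord ((ω.F.map (ε_ A B)).hom (ω.m B A b a)) := rfl

/-- the copairing -/
noncomputable def copair : TensorProduct K (ω.F.obj A) (ω.F.obj B) :=
  (Functor.OplaxMonoidal.δ ω.F A B).hom ((ω.F.map (η_ A B)).hom ω.one)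

theorem μ_copair : (Functor.LaxMonoidal.μ ω.F A B).hom (ω.copair A B) =
    (ω.F.map (η_ A B)).hom ω.one := by
  have h := Functor.Monoidal.δ_μ (F := ω.F) A B
  exact congrArg (fun f => f.hom ((ω.F.map (η_ A B)).hom ω.one)) h

theorem pair_odd (b : ω.F.obj B) (a : ω.F.obj A) :
    ω.pair A B (ω.odd B b) (ω.odd A a) = ω.pair A B b (ω.odd A a) := by
  have h := ω.odd_tensor B A b (ω.odd A a)
  rw [ω.odd_idem, sub_self, TensorProduct.tmul_zero, zero_add, TensorProduct.sub_tmul,
    map_sub] at h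
  have h2 := ω.odd_nat (ε_ A B) ((Functor.LaxMonoidal.μ ω.F B A).hom (b ⊗ₜ[K] ω.odd A a))
  rw [ω.odd_unit, h, map_sub] at h2
  have h3 := congrArg ω.coord h2
  rw [map_zero, map_sub] at h3
  exact (sub_eq_zero.1 h3.symm).symm

theorem map_copair_right (x : TensorProduct K (ω.F.obj A) (ω.F.obj B)) (v : ω.F.obj A) :
    (ω.F.map (A ◁ ε_ A B)).hom ((ω.F.map (α_ A B A).hom).hom
      (ω.m (A ⊗ B) A ((Functor.LaxMonoidal.μ ω.F A B).hom x) v)) =
      ω.m A (𝟙_ 𝒩) (act (ω.pair A B) x v) ω.one := by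
  induction x with
  | zero => simp [m]
  | add x y hx hy =>
    simp only [m, map_add, TensorProduct.add_tmul, LinearMap.add_apply] at hx hy ⊢
    rw [hx, hy]
  | tmul a b =>
    have h1 := congrArg (fun f => f.hom ((a ⊗ₜ[K] b) ⊗ₜ[K] v))
      (Functor.LaxMonoidal.associativity ω.F A B A)
    have h1' : (ω.F.map (α_ A B A).hom).hom
      (ω.m (A ⊗ B) A ((Functor.LaxMonoidal.μ ω.F A B).hom (a ⊗ₜ[K] b)) v) =
      ω.m A (B ⊗ A) a (ω.m B A b v) := h1
    rw [h1']
    have h2 := congrArg (fun f => f.hom (a ⊗ₜ[K] ω.m B A b v))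
      (Functor.LaxMonoidal.μ_natural_right ω.F A (ε_ A B))
    have h2' : ω.m A (𝟙_ 𝒩) a ((ω.F.map (ε_ A B)).hom (ω.m B A b v)) =
      (ω.F.map (A ◁ ε_ A B)).hom (ω.m A (B ⊗ A) a (ω.m B A b v)) := h2
    rw [← h2', act_tmul, pair_apply]
    generalize (ω.F.map (ε_ A B)).hom (ω.m B A b v) = y
    conv_lhs => rw [← ω.coord_smul_one y]
    rw [m, m, TensorProduct.tmul_smul, TensorProduct.smul_tmul']

theorem act_copair : act (ω.pair A B) (ω.copair A B) = 1 := by
  refine LinearMap.ext fun v => ?_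
  have h := congrArg (fun f => (ω.F.map f).hom (ω.m (𝟙_ 𝒩) A ω.one v))
    (ExactPairing.evaluation_coevaluation A B)
  simp only [Functor.map_comp, ModuleCat.hom_comp, LinearMap.comp_apply] at h
  have h1 : (ω.F.map (η_ A B ▷ A)).hom (ω.m (𝟙_ 𝒩) A ω.one v) =
      ω.m (A ⊗ B) A ((ω.F.map (η_ A B)).hom ω.one) v :=
    (congrArg (fun f => f.hom (ω.one ⊗ₜ[K] v))
      (Functor.LaxMonoidal.μ_natural_left ω.F (η_ A B) A)).symm
  have h2 : (ω.F.map (λ_ A).hom).hom (ω.m (𝟙_ 𝒩) A ω.one v) = v := by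
    have := congrArg (fun f => f.hom ((1 : K) ⊗ₜ[K] v)) (Functor.LaxMonoidal.left_unitality ω.F A)
    exact this.symm.trans (one_smul K v)
  have h3 : ∀ w : ω.F.obj A, (ω.F.map (ρ_ A).inv).hom w = ω.m A (𝟙_ 𝒩) w ω.one := by
    intro w
    exact (congrArg (fun f => f.hom w) (Functor.LaxMonoidal.right_unitality_inv ω.F A)).symm
  rw [h1, ← μ_copair, map_copair_right, h2, h3] at h
  have h4 := congrArg (ω.F.map (ρ_ A).hom).hom h
  rw [← h3, ← h3] at h4
  have h5 : ∀ w : ω.F.obj A, (ω.F.map (ρ_ A).hom).hom ((ω.F.map (ρ_ A).inv).hom w) = w := by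
    intro w
    have := congrArg (fun f => (ω.F.map f).hom w) (ρ_ A).inv_hom_id
    simp only [Functor.map_comp, ModuleCat.hom_comp, LinearMap.comp_apply] at this
    rw [ω.F.map_id] at this
    exact this
  rw [h5, h5] at h4
  exact h4

/-- The value of the trace of an endomorphism is its supertrace. -/
theorem coord_catTrace (f : A ⟶ A) :
    ω.coord ((ω.F.map (catTrace A B f)).hom ω.one) =
      LinearMap.trace K (ω.F.obj A) ((1 - (2 : K) • ω.odd A) * (ω.F.map f).hom) := by
  rw [← con_of_act (ω.pair A B) (ω.act_copair A B)]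
  unfold catTrace
  simp only [Functor.map_comp, ModuleCat.hom_comp, LinearMap.comp_apply]
  rw [← μ_copair]
  generalize ω.copair A B = x
  induction x with
  | zero => simp
  | add x y hx hy => simp only [map_add, hx, hy]
  | tmul a b =>
    have h1 : (ω.F.map (f ▷ B)).hom ((Functor.LaxMonoidal.μ ω.F A B).hom (a ⊗ₜ[K] b)) =
        (Functor.LaxMonoidal.μ ω.F A B).hom ((ω.F.map f).hom a ⊗ₜ[K] b) :=
      (congrArg (fun f => f.hom (a ⊗ₜ[K] b))
        (Functor.LaxMonoidal.μ_natural_left ω.F f B)).symm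
    rw [h1, ω.braid, map_sub, map_sub, map_sub, map_smul, map_smul, map_smul, con_tmul,
      Module.End.mul_apply, LinearMap.sub_apply, map_sub, Module.End.one_apply,
      LinearMap.smul_apply, map_smul, ← pair_odd]
    rfl

theorem supertrace_eq {f : A ⟶ A} {c : ℤ} (h : catTrace A B f = c • 𝟙 (𝟙_ 𝒩)) :
    LinearMap.trace K (ω.F.obj A) ((1 - (2 : K) • ω.odd A) * (ω.F.map f).hom) = (c : K) := by
  rw [← ω.coord_catTrace A B f, h, ω.F.map_zsmul, ω.F.map_id, ModuleCat.hom_zsmul,
    LinearMap.smul_apply, map_zsmul]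
  change c • ω.coord ω.one = _
  rw [coord_one, zsmul_one]

include B in
theorem finite_obj : FiniteDimensional K (ω.F.obj A) := finite_of_act _ (ω.act_copair A B)

theorem trace_proj {V : Type} [AddCommGroup V] [Module K V] [FiniteDimensional K V]
    (P : Module.End K V) (hP : ∀ v, P (P v) = P v) :
    LinearMap.trace K V P = (Module.finrank K (LinearMap.range P) : K) :=
  LinearMap.IsProj.trace ⟨fun x => ⟨x, rfl⟩, by rintro _ ⟨y, rfl⟩; exact hP y⟩

variable {A B} in
include B in
theorem even_notMem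
    (h : ∀ f : A ⟶ A, LinearMap.trace K (ω.F.obj A)
      ((1 - (2 : K) • ω.odd A) * (ω.F.map f).hom) = 0)
    (h2 : (Module.finrank K (LinearMap.range (1 - ω.odd A)) : K) ≠ 0) :
    1 - ω.odd A ∉ Submodule.span K (Set.range fun f : A ⟶ A => (ω.F.map f).hom) := by
  intro hmem
  have := ω.finite_obj A B
  have hle : Submodule.span K (Set.range fun f : A ⟶ A => (ω.F.map f).hom) ≤
      LinearMap.ker (LinearMap.trace K (ω.F.obj A) ∘ₗ
        LinearMap.mulLeft K (1 - (2 : K) • ω.odd A)) := by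
    rw [Submodule.span_le]
    rintro _ ⟨f, rfl⟩
    exact h f
  have h3 : LinearMap.trace K (ω.F.obj A)
      ((1 - (2 : K) • ω.odd A) * (1 - ω.odd A)) = 0 := hle hmem
  have h4 : (1 - (2 : K) • ω.odd A) * (1 - ω.odd A) = 1 - ω.odd A := by
    refine LinearMap.ext fun v => ?_
    rw [Module.End.mul_apply, LinearMap.sub_apply, LinearMap.sub_apply, LinearMap.smul_apply,
      Module.End.one_apply, Module.End.one_apply, map_sub, ω.odd_idem, sub_self, smul_zero,
      sub_zero]
  rw [h4, trace_proj] at h3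
  · exact h2 h3
  · intro v
    simp only [LinearMap.sub_apply, Module.End.one_apply, map_sub, ω.odd_idem, sub_self,
      sub_zero]

variable {A B} in
include B in
theorem odd_notMem
    (h : ∀ f : A ⟶ A, LinearMap.trace K (ω.F.obj A)
      ((1 - (2 : K) • ω.odd A) * (ω.F.map f).hom) = 0)
    (h2 : (Module.finrank K (LinearMap.range (ω.odd A)) : K) ≠ 0) :
    ω.odd A ∉ Submodule.span K (Set.range fun f : A ⟶ A => (ω.F.map f).hom) := by
  intro hmem
  have := ω.finite_obj A B
  have hle : Submodule.span K (Set.range fun f : A ⟶ A => (ω.F.map f).hom) ≤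
      LinearMap.ker (LinearMap.trace K (ω.F.obj A) ∘ₗ
        LinearMap.mulLeft K (1 - (2 : K) • ω.odd A)) := by
    rw [Submodule.span_le]
    rintro _ ⟨f, rfl⟩
    exact h f
  have h3 : LinearMap.trace K (ω.F.obj A)
      ((1 - (2 : K) • ω.odd A) * ω.odd A) = 0 := hle hmem
  have h4 : (1 - (2 : K) • ω.odd A) * ω.odd A = - ω.odd A := by
    refine LinearMap.ext fun v => ?_
    rw [Module.End.mul_apply, LinearMap.sub_apply, LinearMap.smul_apply,
      Module.End.one_apply, ω.odd_idem, LinearMap.neg_apply, two_smul, sub_add_cancel_left]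
  rw [h4, map_neg, trace_proj _ (ω.odd_idem A), neg_eq_zero] at h3
  exact h2 h3

end SuperFunctor

end W875.NK
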