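import Pool.Agent.W875.NK.Main
import Pool.Agent.W875.NK.Diag
import Pool.Agent.W875.NK.Trace
import Pool.Agent.W253.NKA
import Pool.Agent.W61.NK.NKB
import Pool.Agent.W933.NKC

/-! # Euler characteristics on the cubic `x³ + t y³ + t² z³ + t x y z` over `𝔽₃(t)` and
algebraic endomorphisms of super realisations -/

namespace W875.NK

open CategoryTheory MonoidalCategory Filter

/-- The field `𝔽₃(t)`. -/
abbrev k₃ : Type := RatFunc (ZMod 3)

/-- The variable `t` of `𝔽₃(t)`. -/
noncomputable abbrev t₃ : k₃ := RatFunc.X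

/-- The plane cubic `x³ + t y³ + t² z³ + t x y z` over `𝔽₃(t)`. -/
noncomputable def cubic : MvPolynomial (Fin 3) k₃ :=
  MvPolynomial.X 0 ^ 3 + MvPolynomial.C t₃ * MvPolynomial.X 1 ^ 3
    + MvPolynomial.C (t₃ ^ 2) * MvPolynomial.X 2 ^ 3
    + MvPolynomial.C t₃ * (MvPolynomial.X 0 * MvPolynomial.X 1 * MvPolynomial.X 2)

/-- `c` is the Euler characteristic of the coherent sheaf presented by `N`: the value at `0` of
its Hilbert polynomial `r n + c`. -/
def IsChi {k : Type} [Field k] {t : k} (N : GrMod k t) (c : ℤ) : Prop :=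
  ∃ r : ℤ, ∀ᶠ n : ℕ in atTop, (N.dim n : ℤ) = r * n + c

/-- `c` is the Euler characteristic of the restriction to the diagonal of the coherent sheaf on
`C × C` presented by `E`. -/
def IsChiDiag {k : Type} [Field k] {t : k} (E : BiMod k t) (c : ℤ) : Prop :=
  ∃ r : ℤ, ∀ᶠ n : ℕ in atTop, (Module.finrank k (E.D n) : ℤ) = r * n + c

/-- An endomorphism of `ω(A)` is algebraic if it is a `K`-linear combination of endomorphisms
induced by endomorphisms of `A`. -/
def SuperFunctor.Algebraic {𝒩 : Type*} [Category* 𝒩] [MonoidalCategory 𝒩] [SymmetricCategory 𝒩]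
    [Preadditive 𝒩] {K : Type} [Field K] (ω : SuperFunctor 𝒩 K) (A : 𝒩)
    (g : Module.End K (ω.F.obj A)) : Prop :=
  g ∈ Submodule.span K (Set.range fun f : A ⟶ A => (ω.F.map f).hom)

theorem three_eq_zero : (3 : k₃) = 0 := by
  have h : ((3 : ZMod 3)) = 0 := by decide
  have := congrArg (algebraMap (ZMod 3) k₃) h
  rwa [map_zero, map_ofNat] at this

theorem opsDvd : GrMod.OpsDvd k₃ t₃ :=
  Pool.Agent.W61.NK.partB k₃ t₃ Pool.Agent.W253.NKA.partA

theorem isChi_dvd (N : GrMod k₃ t₃) : ∃ c : ℤ, 3 ∣ c ∧ IsChi N c := by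
  obtain ⟨r, c, -, hc, h⟩ := GrMod.lin3 opsDvd Pool.Agent.W933.NKC.partC N
  exact ⟨c, hc, r, h⟩

theorem index_three (L : Type) [Field L] [Algebra k₃ L] [FiniteDimensional k₃ L]
    (v : Fin 3 → L) (hv : v ≠ 0) (h : MvPolynomial.aeval v cubic = 0) :
    3 ∣ Module.finrank k₃ L := by
  refine Pool.Agent.W253.NKA.partA L (v 0) (v 1) (v 2) ?_ ?_
  · have := h
    unfold cubic at this
    simp only [map_add, map_mul, map_pow, MvPolynomial.aeval_X, MvPolynomial.aeval_C] at this
    exact this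
  · rintro ⟨h0, h1, h2⟩
    refine hv (funext fun i => ?_)
    fin_cases i
    · exact h0
    · exact h1
    · exact h2

theorem smooth (L : Type) [Field L] [Algebra k₃ L] (v : Fin 3 → L)
    (h : MvPolynomial.aeval v cubic = 0)
    (hd : ∀ i, MvPolynomial.aeval v (MvPolynomial.pderiv i cubic) = 0) : v = 0 := by
  have h3 : (3 : L) = 0 := by
    have := congrArg (algebraMap k₃ L) three_eq_zero
    rwa [map_zero, map_ofNat] at this
  have ht : algebraMap k₃ L t₃ ≠ 0 := by
    rw [Ne, map_eq_zero]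
    exact RatFunc.X_ne_zero
  unfold cubic at h
  simp only [map_add, map_mul, map_pow, MvPolynomial.aeval_X, MvPolynomial.aeval_C] at h
  have e0 := hd 0
  have e1 := hd 1
  have e2 := hd 2
  unfold cubic at e0 e1 e2
  have h10 : (1 : Fin 3) ≠ 0 := by decide
  have h20 : (2 : Fin 3) ≠ 0 := by decide
  have h21 : (2 : Fin 3) ≠ 1 := by decide
  simp only [map_add, Derivation.leibniz, Derivation.leibniz_pow, MvPolynomial.pderiv_C,
    MvPolynomial.pderiv_X_self, MvPolynomial.pderiv_X_of_ne h10,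
    MvPolynomial.pderiv_X_of_ne h20, MvPolynomial.pderiv_X_of_ne h21,
    MvPolynomial.pderiv_X_of_ne h10.symm,
    MvPolynomial.pderiv_X_of_ne h20.symm, MvPolynomial.pderiv_X_of_ne h21.symm, smul_eq_mul,
    map_mul, map_pow, MvPolynomial.aeval_X, MvPolynomial.aeval_C, nsmul_eq_mul,
    mul_zero, mul_one, add_zero, zero_add, Nat.cast_ofNat, map_ofNat, h3, zero_mul]
    at e0 e1 e2
  have f0 := (mul_eq_zero.1 e0).resolve_left ht
  have f1 := (mul_eq_zero.1 e1).resolve_left ht
  have f2 := (mul_eq_zero.1 e2).resolve_left ht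
  have key : v 0 = 0 ∧ v 1 = 0 ∧ v 2 = 0 := by
    rcases mul_eq_zero.1 f0 with g2 | g1
    · rcases mul_eq_zero.1 f2 with g0 | g1
      · rw [g2, g0] at h
        have h' : algebraMap k₃ L t₃ * v 1 ^ 3 = 0 := by linear_combination h
        exact ⟨g0, pow_eq_zero_iff (three_ne_zero) |>.1 ((mul_eq_zero.1 h').resolve_left ht), g2⟩
      · rw [g2, g1] at h
        have h' : v 0 ^ 3 = 0 := by linear_combination h
        exact ⟨pow_eq_zero_iff (three_ne_zero) |>.1 h', g1, g2⟩
    · rcases mul_eq_zero.1 f1 with g2 | g0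
      · rw [g2, g1] at h
        have h' : v 0 ^ 3 = 0 := by linear_combination h
        exact ⟨pow_eq_zero_iff (three_ne_zero) |>.1 h', g1, g2⟩
      · rw [g1, g0] at h
        have h' : algebraMap k₃ L t₃ ^ 2 * v 2 ^ 3 = 0 := by linear_combination h
        exact ⟨g0, g1, pow_eq_zero_iff (three_ne_zero) |>.1
          ((mul_eq_zero.1 h').resolve_left (pow_ne_zero 2 ht))⟩
  refine funext fun i => ?_
  fin_cases i
  · exact key.1
  · exact key.2.1
  · exact key.2.2

/-- The main theorem. -/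
theorem not_algebraic {𝒩 : Type*} [Category* 𝒩] [MonoidalCategory 𝒩] [SymmetricCategory 𝒩]
    [Preadditive 𝒩] (A B : 𝒩) [ExactPairing A B] (S : Set (BiMod k₃ t₃))
    (cls : BiMod k₃ t₃ → (A ⟶ A)) (hS : AddSubgroup.closure (cls '' S) = ⊤)
    (hcls : ∀ E ∈ S, ∀ c : ℤ, IsChiDiag E c → catTrace A B (cls E) = c • 𝟙 (𝟙_ 𝒩))
    (K : Type) [Field K] [Algebra k₃ K] (ω : SuperFunctor 𝒩 K) :
    (¬ 3 ∣ Module.finrank K (LinearMap.range (1 - ω.odd A)) → ¬ ω.Algebraic A (1 - ω.odd A)) ∧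
    (¬ 3 ∣ Module.finrank K (LinearMap.range (ω.odd A)) → ¬ ω.Algebraic A (ω.odd A)) := by
  have h3 : ((3 : ℕ) : K) = 0 := by
    have := congrArg (algebraMap k₃ K) three_eq_zero
    rw [map_zero, map_ofNat] at this
    exact_mod_cast this
  have hchar : CharP K 3 := (CharP.charP_iff_prime_eq_zero Nat.prime_three).2 h3
  have hstr : ∀ f : A ⟶ A, LinearMap.trace K (ω.F.obj A)
      ((1 - (2 : K) • ω.odd A) * (ω.F.map f).hom) = 0 := by
    intro f
    have hf : f ∈ AddSubgroup.closure (cls '' S) := by rw [hS]; trivial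
    induction hf using AddSubgroup.closure_induction with
    | mem f hf =>
      obtain ⟨E, hE, rfl⟩ := hf
      obtain ⟨c, ⟨d, rfl⟩, hc⟩ := isChi_dvd E.diag
      rw [ω.supertrace_eq A B (hcls E hE _ hc)]
      push_cast at h3 ⊢
      rw [h3, zero_mul]
    | zero => rw [ω.F.map_zero, ModuleCat.hom_zero, mul_zero, map_zero]
    | add f g _ _ hf hg => rw [ω.F.map_add, ModuleCat.hom_add, mul_add, map_add, hf, hg, add_zero]
    | neg f _ hf => rw [ω.F.map_neg, ModuleCat.hom_neg, mul_neg, map_neg, hf, neg_zero]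
  refine ⟨fun h => ω.even_notMem (B := B) hstr ?_, fun h => ω.odd_notMem (B := B) hstr ?_⟩
  · rwa [Ne, CharP.cast_eq_zero_iff K 3]
  · rwa [Ne, CharP.cast_eq_zero_iff K 3]

end W875.NK
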