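import Pool.Agent.W875.NK.Stmt
import Pool.Agent.W875.NK.Final

/-! # From the definitions of the statement to the ones of the proof -/

namespace W875.NK.St

open CategoryTheory MonoidalCategory

section modules

variable {k : Type} [Field k] {t : k}

theorem OnCubic.hX {T : Type} [AddCommGroup T] [Module k T] {X : Fin 3 → Module.End k T}
    (h : OnCubic t X) (i j : Fin 3) (v : T) : X i (X j v) = X j (X i v) :=
  congrArg (fun f => f v) (h.1 i j)

theorem OnCubic.hF {T : Type} [AddCommGroup T] [Module k T] {X : Fin 3 → Module.End k T}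
    (h : OnCubic t X) (v : T) : X 0 (X 0 (X 0 v)) + t • X 1 (X 1 (X 1 v))
      + t ^ 2 • X 2 (X 2 (X 2 v)) + t • X 0 (X 1 (X 2 v)) = 0 :=
  congrArg (fun f => f v) h.2

theorem iSup_fin3_le {T : Type} [AddCommGroup T] [Module k T] (f : Fin 3 → Submodule k T) :
    ⨆ i, f i ≤ f 0 ⊔ f 1 ⊔ f 2 := by
  refine iSup_le fun i => ?_
  fin_cases i
  · exact le_sup_of_le_left le_sup_left
  · exact le_sup_of_le_left le_sup_right
  · exact le_sup_right

theorem Mod.toGr (N : Mod t) : ∃ M : GrMod k t, ∀ n, M.dim n = Module.finrank k (N.D n) :=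
  ⟨GrMod.ofOps N.T N.X N.onCubic.hX N.onCubic.hF N.D N.fin
    (fun n i _ hv => N.map_le n i ⟨_, hv, rfl⟩)
    (by
      obtain ⟨B, hB⟩ := N.gen
      refine ⟨B, fun n hn => ?_⟩
      rw [hB n hn]
      exact iSup_fin3_le _), fun _ => rfl⟩

namespace BiMod

variable (E : BiMod t)

theorem rel_stable (i : Fin 3) : E.rel ≤ E.rel.comap (E.X i) := by
  refine iSup_le fun j => ?_
  rintro _ ⟨v, rfl⟩
  refine Submodule.mem_iSup_of_mem j ⟨E.X i v, ?_⟩
  have h : E.X i (E.Y j v) = E.Y j (E.X i v) := congrArg (fun f => f v) (E.comm i j)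
  rw [LinearMap.sub_apply, LinearMap.sub_apply, map_sub, E.onCubicX.hX i j, h]

/-- multiplication on the quotient -/
noncomputable def Xq (i : Fin 3) : Module.End k (E.T ⧸ E.rel) :=
  E.rel.mapQ E.rel (E.X i) (E.rel_stable i)

theorem Xq_mkQ (i : Fin 3) (v : E.T) : E.Xq i (E.rel.mkQ v) = E.rel.mkQ (E.X i v) := rfl

theorem mkQ_Y (i : Fin 3) (v : E.T) : E.rel.mkQ (E.Y i v) = E.Xq i (E.rel.mkQ v) := by
  rw [Xq_mkQ, eq_comm, ← sub_eq_zero, ← map_sub, Submodule.mkQ_apply,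
    Submodule.Quotient.mk_eq_zero]
  exact Submodule.mem_iSup_of_mem i ⟨v, rfl⟩

theorem mem_diag {a b n : ℕ} (h : a + b = n) {v : E.T} (hv : v ∈ E.D a b) :
    E.rel.mkQ v ∈ E.diag n := by
  refine ⟨v, ?_, rfl⟩
  exact Submodule.mem_iSup_of_mem a (Submodule.mem_iSup_of_mem b
    (Submodule.mem_iSup_of_mem h hv))

theorem diag_le {n : ℕ} {W : Submodule k (E.T ⧸ E.rel)}
    (h : ∀ a b, a + b = n → ∀ v ∈ E.D a b, E.rel.mkQ v ∈ W) : E.diag n ≤ W := by
  rw [diag, Submodule.map_le_iff_le_comap]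
  exact iSup_le fun a => iSup_le fun b => iSup_le fun hab => fun v hv => h a b hab v hv

theorem diag_fin (n : ℕ) : FiniteDimensional k (E.diag n) := by
  have := E.fin
  refine Submodule.finiteDimensional_of_le
    (S₂ := ⨆ p : Fin (n + 1), (E.D p.1 (n - p.1)).map E.rel.mkQ) ?_
  refine E.diag_le fun a b hab v hv => ?_
  refine Submodule.mem_iSup_of_mem (⟨a, by omega⟩ : Fin (n + 1)) ⟨v, ?_, rfl⟩
  rwa [show n - a = b by omega]

theorem diag_map (n : ℕ) (i : Fin 3) (v : E.T ⧸ E.rel) (hv : v ∈ E.diag n) :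
    E.Xq i v ∈ E.diag (n + 1) := by
  have : E.diag n ≤ (E.diag (n + 1)).comap (E.Xq i) := by
    refine E.diag_le fun a b hab v hv => ?_
    rw [Submodule.mem_comap, Xq_mkQ]
    exact E.mem_diag (a := a + 1) (b := b) (by omega) (E.map_leX a b i ⟨v, hv, rfl⟩)
  exact this hv

theorem diag_gen : ∃ N, ∀ n, N ≤ n → E.diag (n + 1) ≤
    (E.diag n).map (E.Xq 0) ⊔ (E.diag n).map (E.Xq 1) ⊔ (E.diag n).map (E.Xq 2) := by
  obtain ⟨N₁, h₁⟩ := E.genX
  obtain ⟨N₂, h₂⟩ := E.genY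
  refine ⟨N₁ + N₂ + 1, fun n hn => ?_⟩
  refine le_trans ?_ (iSup_fin3_le fun i => (E.diag n).map (E.Xq i))
  refine E.diag_le fun a b hab v hv => ?_
  by_cases ha : N₁ + 1 ≤ a
  · obtain ⟨a, rfl⟩ := Nat.exists_eq_add_of_le' (show 1 ≤ a by omega)
    rw [h₁ a b (by omega)] at hv
    have : (⨆ i, (E.D a b).map (E.X i)) ≤
        (⨆ i : Fin 3, (E.diag n).map (E.Xq i)).comap E.rel.mkQ := by
      refine iSup_le fun i => ?_
      rintro _ ⟨w, hw, rfl⟩
      exact Submodule.mem_iSup_of_mem i ⟨E.rel.mkQ w, E.mem_diag (by omega) hw, rfl⟩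
    exact this hv
  · obtain ⟨b, rfl⟩ := Nat.exists_eq_add_of_le' (show 1 ≤ b by omega)
    rw [h₂ a b (by omega)] at hv
    have : (⨆ i, (E.D a b).map (E.Y i)) ≤
        (⨆ i : Fin 3, (E.diag n).map (E.Xq i)).comap E.rel.mkQ := by
      refine iSup_le fun i => ?_
      rintro _ ⟨w, hw, rfl⟩
      refine Submodule.mem_iSup_of_mem i ⟨E.rel.mkQ w, E.mem_diag (a := a) (b := b)
        (by omega) hw, ?_⟩
      exact (E.mkQ_Y i w).symm
    exact this hv

theorem toGr : ∃ M : GrMod k t, ∀ n, M.dim n = Module.finrank k (E.diag n) :=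
  ⟨GrMod.ofOps (E.T ⧸ E.rel) E.Xq
    (fun i j v => by
      obtain ⟨v, rfl⟩ := Submodule.mkQ_surjective _ v
      exact congrArg E.rel.mkQ (E.onCubicX.hX i j v))
    (fun v => by
      obtain ⟨v, rfl⟩ := Submodule.mkQ_surjective _ v
      exact (congrArg E.rel.mkQ (E.onCubicX.hF v)).trans (map_zero _))
    E.diag E.diag_fin E.diag_map E.diag_gen, fun _ => rfl⟩

end BiMod

end modules

theorem Mod.chi (N : Mod t₃) : ∃ c : ℤ, 3 ∣ c ∧ IsChi N.D c := by
  obtain ⟨M, hM⟩ := N.toGr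
  obtain ⟨c, hc, r, h⟩ := isChi_dvd M
  obtain ⟨B, hB⟩ := Filter.eventually_atTop.1 h
  exact ⟨c, hc, r, B, fun n hn => by rw [← hM]; exact hB n hn⟩

theorem BiMod.chi (E : BiMod t₃) : ∃ c : ℤ, 3 ∣ c ∧ IsChi E.diag c := by
  obtain ⟨M, hM⟩ := E.toGr
  obtain ⟨c, hc, r, h⟩ := isChi_dvd M
  obtain ⟨B, hB⟩ := Filter.eventually_atTop.1 h
  exact ⟨c, hc, r, B, fun n hn => by rw [← hM]; exact hB n hn⟩

section categories

universe v u

variable {𝒩 : Type u} [Category.{v} 𝒩] [MonoidalCategory 𝒩] [SymmetricCategory 𝒩]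
  [Preadditive 𝒩] {K : Type} [Field K]

/-- The super functor of the proof. -/
noncomputable def SuperFunctor.conv (ω : SuperFunctor 𝒩 K) : NK.SuperFunctor 𝒩 K where
  F := ω.F
  odd := ω.odd
  odd_idem X v := congrArg (fun f => f v) (ω.odd_idem X)
  odd_nat := ω.odd_nat
  odd_unit v := by rw [ω.odd_unit]; rfl
  odd_tensor X Y v w := by
    have := ω.odd_tensor X Y v w
    rw [map_add]
    exact this
  braid X Y v w := by
    have := ω.braid X Y v w
    rw [map_sub, map_smul]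
    exact this

theorem not_algebraic (A B : 𝒩) [ExactPairing A B] (S : Set (BiMod t₃))
    (cls : BiMod t₃ → (A ⟶ A)) (hS : AddSubgroup.closure (cls '' S) = ⊤)
    (hcls : ∀ E ∈ S, ∀ c : ℤ, IsChi E.diag c → trace A B (cls E) = c • 𝟙 (𝟙_ 𝒩))
    (K : Type) [Field K] [Algebra k₃ K] (ω : SuperFunctor 𝒩 K) :
    (¬ 3 ∣ ω.evenDim A → ¬ ω.Algebraic A (ω.even A)) ∧
    (¬ 3 ∣ ω.oddDim A → ¬ ω.Algebraic A (ω.odd A)) := by
  have h3 : ((3 : ℕ) : K) = 0 := by
    have := congrArg (algebraMap k₃ K) three_eq_zero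
    rw [map_zero, map_ofNat] at this
    exact_mod_cast this
  have hchar : CharP K 3 := (CharP.charP_iff_prime_eq_zero Nat.prime_three).2 h3
  have hstr : ∀ f : A ⟶ A, LinearMap.trace K (ω.conv.F.obj A)
      ((1 - (2 : K) • ω.conv.odd A) * (ω.conv.F.map f).hom) = 0 := by
    intro f
    have hf : f ∈ AddSubgroup.closure (cls '' S) := by rw [hS]; trivial
    induction hf using AddSubgroup.closure_induction with
    | mem f hf =>
      obtain ⟨E, hE, rfl⟩ := hf
      obtain ⟨c, ⟨d, rfl⟩, hc⟩ := E.chi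
      rw [ω.conv.supertrace_eq A B (hcls E hE _ hc)]
      push_cast at h3 ⊢
      rw [h3, zero_mul]
    | zero => rw [ω.conv.F.map_zero, ModuleCat.hom_zero, mul_zero, map_zero]
    | add f g _ _ hf hg =>
      rw [ω.conv.F.map_add, ModuleCat.hom_add, mul_add, map_add, hf, hg, add_zero]
    | neg f _ hf => rw [ω.conv.F.map_neg, ModuleCat.hom_neg, mul_neg, map_neg, hf, neg_zero]
  refine ⟨fun h => ω.conv.even_notMem (B := B) hstr ?_,
    fun h => ω.conv.odd_notMem (B := B) hstr ?_⟩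
  · rw [Ne, CharP.cast_eq_zero_iff K 3]
    exact h
  · rw [Ne, CharP.cast_eq_zero_iff K 3]
    exact h

end categories

end W875.NK.St
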