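import Mathlib

/-! # Graded modules over the coordinate ring of the plane cubic
`x³ + t y³ + t² z³ + t x y z = 0` -/

namespace W875.NK

/-- A graded module over `k[x, y, z] / (x³ + t y³ + t² z³ + t x y z)`, with finite
dimensional pieces, finitely generated. It presents a coherent sheaf on the plane cubic. -/
structure GrMod (k : Type) [Field k] (t : k) where
  /-- the homogeneous pieces -/
  M : ℕ → Type
  [acg : ∀ n, AddCommGroup (M n)]
  [mod : ∀ n, Module k (M n)]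
  [fin : ∀ n, FiniteDimensional k (M n)]
  /-- multiplication by the first coordinate -/
  x : ∀ n, M n →ₗ[k] M (n + 1)
  /-- multiplication by the second coordinate -/
  y : ∀ n, M n →ₗ[k] M (n + 1)
  /-- multiplication by the third coordinate -/
  z : ∀ n, M n →ₗ[k] M (n + 1)
  xy : ∀ n m, x (n + 1) (y n m) = y (n + 1) (x n m)
  xz : ∀ n m, x (n + 1) (z n m) = z (n + 1) (x n m)
  yz : ∀ n m, y (n + 1) (z n m) = z (n + 1) (y n m)
  eqn : ∀ n m, x (n + 2) (x (n + 1) (x n m)) + t • y (n + 2) (y (n + 1) (y n m))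
    + t ^ 2 • z (n + 2) (z (n + 1) (z n m)) + t • x (n + 2) (y (n + 1) (z n m)) = 0
  gen : ∃ N, ∀ n, N ≤ n →
    LinearMap.range (x n) ⊔ LinearMap.range (y n) ⊔ LinearMap.range (z n) = ⊤

attribute [instance] GrMod.acg GrMod.mod GrMod.fin

namespace GrMod

variable {k : Type} [Field k] {t : k}

/-- The dimension of the piece of degree `n`. -/
noncomputable def dim (M : GrMod k t) (n : ℕ) : ℕ := Module.finrank k (M.M n)

/-- Stable families of subspaces: the graded submodules. -/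
def Stable (M : GrMod k t) (K : ∀ n, Submodule k (M.M n)) : Prop :=
  ∀ n, (K n).map (M.x n) ≤ K (n + 1) ∧ (K n).map (M.y n) ≤ K (n + 1) ∧
    (K n).map (M.z n) ≤ K (n + 1)

/-- Generated in degree `0`. -/
def Gen0 (M : GrMod k t) : Prop :=
  ∀ n, LinearMap.range (M.x n) ⊔ LinearMap.range (M.y n) ⊔ LinearMap.range (M.z n) = ⊤

/-- The shift. -/
def shift (M : GrMod k t) (D : ℕ) : GrMod k t where
  M n := M.M (D + n)
  x n := M.x (D + n)
  y n := M.y (D + n)
  z n := M.z (D + n)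
  xy n m := M.xy (D + n) m
  xz n m := M.xz (D + n) m
  yz n m := M.yz (D + n) m
  eqn n m := M.eqn (D + n) m
  gen := by
    obtain ⟨N, h⟩ := M.gen
    exact ⟨N, fun n hn => h (D + n) (by omega)⟩

theorem exists_shift_gen0 (M : GrMod k t) : ∃ D, ∀ E, D ≤ E → (M.shift E).Gen0 := by
  obtain ⟨N, h⟩ := M.gen
  exact ⟨N, fun E hE n => h (E + n) (by omega)⟩

/-- The quotient by a stable family. -/
noncomputable def quot (M : GrMod k t) (K : ∀ n, Submodule k (M.M n)) (hK : M.Stable K) :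
    GrMod k t where
  M n := M.M n ⧸ K n
  x n := (K n).mapQ (K (n + 1)) (M.x n) (Submodule.map_le_iff_le_comap.1 (hK n).1)
  y n := (K n).mapQ (K (n + 1)) (M.y n) (Submodule.map_le_iff_le_comap.1 (hK n).2.1)
  z n := (K n).mapQ (K (n + 1)) (M.z n) (Submodule.map_le_iff_le_comap.1 (hK n).2.2)
  xy n m := by
    obtain ⟨m, rfl⟩ := Submodule.mkQ_surjective _ m
    simp only [Submodule.mkQ_apply, Submodule.mapQ_apply, M.xy]
  xz n m := by
    obtain ⟨m, rfl⟩ := Submodule.mkQ_surjective _ m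
    simp only [Submodule.mkQ_apply, Submodule.mapQ_apply, M.xz]
  yz n m := by
    obtain ⟨m, rfl⟩ := Submodule.mkQ_surjective _ m
    simp only [Submodule.mkQ_apply, Submodule.mapQ_apply, M.yz]
  eqn n m := by
    obtain ⟨m, rfl⟩ := Submodule.mkQ_surjective _ m
    simp only [Submodule.mkQ_apply, Submodule.mapQ_apply]
    rw [← Submodule.Quotient.mk_smul, ← Submodule.Quotient.mk_smul,
      ← Submodule.Quotient.mk_smul, ← Submodule.Quotient.mk_add,
      ← Submodule.Quotient.mk_add, ← Submodule.Quotient.mk_add, M.eqn,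
      Submodule.Quotient.mk_zero]
  gen := by
    obtain ⟨N, h⟩ := M.gen
    refine ⟨N, fun n hn => ?_⟩
    have := congrArg (Submodule.map (K (n + 1)).mkQ) (h n hn)
    rw [Submodule.map_sup, Submodule.map_sup, Submodule.map_top, Submodule.range_mkQ] at this
    rw [eq_top_iff, ← this]
    refine sup_le (sup_le ?_ ?_) ?_
    · refine le_sup_of_le_left (le_sup_of_le_left ?_)
      rintro _ ⟨_, ⟨m, rfl⟩, rfl⟩
      exact ⟨(K n).mkQ m, by simp⟩
    · refine le_sup_of_le_left (le_sup_of_le_right ?_)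
      rintro _ ⟨_, ⟨m, rfl⟩, rfl⟩
      exact ⟨(K n).mkQ m, by simp⟩
    · refine le_sup_of_le_right ?_
      rintro _ ⟨_, ⟨m, rfl⟩, rfl⟩
      exact ⟨(K n).mkQ m, by simp⟩

/-- The submodule given by a stable family that is generated from some degree on. -/
def sub (M : GrMod k t) (K : ∀ n, Submodule k (M.M n)) (hK : M.Stable K)
    (hg : ∃ N, ∀ n, N ≤ n →
      K (n + 1) ≤ (K n).map (M.x n) ⊔ (K n).map (M.y n) ⊔ (K n).map (M.z n)) : GrMod k t where
  M n := K n
  x n := (M.x n).restrict fun m hm => (hK n).1 ⟨m, hm, rfl⟩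
  y n := (M.y n).restrict fun m hm => (hK n).2.1 ⟨m, hm, rfl⟩
  z n := (M.z n).restrict fun m hm => (hK n).2.2 ⟨m, hm, rfl⟩
  xy n m := Subtype.ext (M.xy n m)
  xz n m := Subtype.ext (M.xz n m)
  yz n m := Subtype.ext (M.yz n m)
  eqn n m := Subtype.ext (M.eqn n m)
  gen := by
    obtain ⟨N, h⟩ := hg
    refine ⟨N, fun n hn => ?_⟩
    rw [eq_top_iff]
    rintro ⟨m, hm⟩ -
    obtain ⟨a, ha, c, hc, rfl⟩ := Submodule.mem_sup.1 (h n hn hm)
    obtain ⟨a, ha', b, hb, rfl⟩ := Submodule.mem_sup.1 ha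
    obtain ⟨a, ha1, rfl⟩ := ha'
    obtain ⟨b, hb1, rfl⟩ := hb
    obtain ⟨c, hc1, rfl⟩ := hc
    exact Submodule.mem_sup.2 ⟨_, Submodule.mem_sup.2 ⟨_, ⟨⟨a, ha1⟩, rfl⟩, _, ⟨⟨b, hb1⟩, rfl⟩,
      rfl⟩, _, ⟨⟨c, hc1⟩, rfl⟩, rfl⟩

theorem dim_quot (M : GrMod k t) (K : ∀ n, Submodule k (M.M n)) (hK : M.Stable K) (n : ℕ) :
    (M.quot K hK).dim n + Module.finrank k (K n) = M.dim n :=
  Submodule.finrank_quotient_add_finrank (K n)

theorem gen0_quot (M : GrMod k t) (hM : M.Gen0) (K : ∀ n, Submodule k (M.M n))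
    (hK : M.Stable K) : (M.quot K hK).Gen0 := by
  intro n
  have := congrArg (Submodule.map (K (n + 1)).mkQ) (hM n)
  rw [Submodule.map_sup, Submodule.map_sup, Submodule.map_top, Submodule.range_mkQ] at this
  refine eq_top_iff.2 (le_trans (le_of_eq this.symm) ?_)
  refine sup_le (sup_le ?_ ?_) ?_
  · refine le_sup_of_le_left (le_sup_of_le_left ?_)
    rintro _ ⟨_, ⟨m, rfl⟩, rfl⟩
    exact ⟨(K n).mkQ m, rfl⟩
  · refine le_sup_of_le_left (le_sup_of_le_right ?_)
    rintro _ ⟨_, ⟨m, rfl⟩, rfl⟩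
    exact ⟨(K n).mkQ m, rfl⟩
  · refine le_sup_of_le_right ?_
    rintro _ ⟨_, ⟨m, rfl⟩, rfl⟩
    exact ⟨(K n).mkQ m, rfl⟩

theorem mkQ_x (M : GrMod k t) (K : ∀ n, Submodule k (M.M n)) (hK : M.Stable K) (n : ℕ)
    (m : M.M n) : (M.quot K hK).x n ((K n).mkQ m) = (K (n + 1)).mkQ (M.x n m) := rfl

theorem mkQ_y (M : GrMod k t) (K : ∀ n, Submodule k (M.M n)) (hK : M.Stable K) (n : ℕ)
    (m : M.M n) : (M.quot K hK).y n ((K n).mkQ m) = (K (n + 1)).mkQ (M.y n m) := rfl

theorem mkQ_z (M : GrMod k t) (K : ∀ n, Submodule k (M.M n)) (hK : M.Stable K) (n : ℕ)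
    (m : M.M n) : (M.quot K hK).z n ((K n).mkQ m) = (K (n + 1)).mkQ (M.z n m) := rfl

end GrMod

end W875.NK
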