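import Pool.Agent.W875.NK.Op

/-! # Modules killed by `z`, and modules on which `z` is injective -/

namespace W875.NK

open Filter

namespace GrMod

variable {k : Type} [Field k] {t : k}

theorem dim_shift (M : GrMod k t) (D n : ℕ) : (M.shift D).dim n = M.dim (D + n) := rfl

/-- In a module generated in degree `0` and killed by `z`, `y` is surjective from degree `2`
on. -/
theorem y_surj_of_kill (M : GrMod k t) (h0 : M.Gen0) (hz : ∀ n m, M.z n m = 0) (n : ℕ) :
    ∀ m, m ∈ LinearMap.range (M.y (n + 2)) := by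
  have dec : ∀ n (m : M.M (n + 1)), ∃ a b, m = M.x n a + M.y n b := by
    intro n m
    have hm : m ∈ LinearMap.range (M.x n) ⊔ LinearMap.range (M.y n) ⊔ LinearMap.range (M.z n) := by
      rw [h0 n]; trivial
    obtain ⟨p, hp, _, ⟨c, rfl⟩, rfl⟩ := Submodule.mem_sup.1 hm
    obtain ⟨_, ⟨a, rfl⟩, _, ⟨b, rfl⟩, rfl⟩ := Submodule.mem_sup.1 hp
    exact ⟨a, b, by rw [hz, add_zero]⟩
  have key : ∀ n (m : M.M (n + 2)), M.x (n + 2) m ∈ LinearMap.range (M.y (n + 2)) := by
    intro n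
    induction n with
    | zero =>
      intro m
      obtain ⟨a, b, rfl⟩ := dec 1 m
      obtain ⟨a, b', rfl⟩ := dec 0 a
      have e := M.eqn 0 a
      rw [hz, smul_zero, add_zero, hz, map_zero, map_zero, smul_zero, add_zero] at e
      have e1 : M.x 2 (M.x 1 (M.x 0 a)) = M.y 2 (-(t • M.y 1 (M.y 0 a))) := by
        rw [map_neg, map_smul]; exact eq_neg_of_add_eq_zero_left e
      refine ⟨-(t • M.y 1 (M.y 0 a)) + M.x 1 (M.x 0 b') + M.x 1 b, ?_⟩
      rw [map_add, map_add, ← e1, map_add, map_add, map_add]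
      rw [M.xy 0 b', M.xy 1 (M.x 0 b'), M.xy 1 b]
    | succ n ih =>
      intro m
      obtain ⟨a, b, rfl⟩ := dec (n + 2) m
      obtain ⟨c, hc⟩ := ih a
      refine ⟨M.x (n + 2) (c + b), ?_⟩
      rw [← hc, ← map_add]
      exact (M.xy (n + 2) (c + b)).symm
  intro m
  obtain ⟨a, b, rfl⟩ := dec (n + 2) m
  exact Submodule.add_mem _ (key n a) ⟨b, rfl⟩

theorem dim_succ_le_of_kill (M : GrMod k t) (h0 : M.Gen0) (hz : ∀ n m, M.z n m = 0) (n : ℕ) :
    M.dim (n + 3) ≤ M.dim (n + 2) := by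
  have h := LinearMap.finrank_range_le (M.y (n + 2))
  have hs : LinearMap.range (M.y (n + 2)) = ⊤ :=
    eq_top_iff.2 fun m _ => M.y_surj_of_kill h0 hz n m
  rw [hs, finrank_top] at h
  exact h

/-- Modules killed by `z`: the dimension is eventually constant, divisible by `3`. -/
theorem kill (H : OpsDvd k t) (M : GrMod k t) (h0 : M.Gen0) (hz : ∀ n m, M.z n m = 0) :
    ∃ q, 3 ∣ q ∧ (∀ n, 2 ≤ n → q ≤ M.dim n) ∧ ∀ᶠ n in atTop, M.dim n = q := by
  obtain ⟨n₀, hn₀, h⟩ := eventually_const M.dim 2 (fun n hn => by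
    obtain ⟨m, rfl⟩ := Nat.exists_eq_add_of_le hn
    have := M.dim_succ_le_of_kill h0 hz m
    rwa [show 2 + m + 1 = m + 3 by ring, show 2 + m = m + 2 by ring])
  have hmono : ∀ n m, 2 ≤ n → n ≤ m → M.dim m ≤ M.dim n := by
    intro n m hn hnm
    induction m, hnm using Nat.le_induction with
    | base => exact le_rfl
    | succ m hm ih =>
      refine le_trans ?_ ih
      obtain ⟨m, rfl⟩ := Nat.exists_eq_add_of_le (hn.trans hm)
      have := M.dim_succ_le_of_kill h0 hz m
      rwa [show 2 + m + 1 = m + 3 by ring, show 2 + m = m + 2 by ring]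
  refine ⟨M.dim n₀, ?_, ?_, ?_⟩
  · refine dvd_of_bijective (M.shift n₀) (M.shift n₀).y H (fun n => ?_) (Or.inl rfl)
    have hs : Function.Surjective ((M.shift n₀).y n) := by
      intro m
      have := M.y_surj_of_kill h0 hz (n₀ + n - 2)
      rw [show n₀ + n - 2 + 2 = n₀ + n by omega] at this
      exact this m
    refine ⟨?_, hs⟩
    refine (LinearMap.injective_iff_surjective_of_finrank_eq_finrank ?_).2 hs
    change M.dim (n₀ + n) = M.dim (n₀ + n + 1)
    rw [h (n₀ + n) (by omega), h (n₀ + n + 1) (by omega)]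
  · intro n hn
    rcases le_total n n₀ with h' | h'
    · exact hmono n n₀ hn h'
    · rw [h n h']
  · exact eventually_atTop.2 ⟨n₀, h⟩

theorem kill_lin3 (H : OpsDvd k t) (M : GrMod k t) (hz : ∀ n m, M.z n m = 0) :
    Lin3 M.dim := by
  obtain ⟨D, hD⟩ := M.exists_shift_gen0
  obtain ⟨q, hq, -, h⟩ := kill H (M.shift D) (hD D le_rfl) (fun n m => hz _ _)
  exact Lin3.of_shift D (Lin3.const hq h)

/-- The family `z M`. -/
def zfam (M : GrMod k t) : ∀ n, Submodule k (M.M n)
  | 0 => ⊥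
  | n + 1 => LinearMap.range (M.z n)

theorem zfam_stable (M : GrMod k t) : M.Stable M.zfam := by
  intro n
  cases n with
  | zero => exact ⟨by simp [zfam], by simp [zfam], by simp [zfam]⟩
  | succ n =>
    refine ⟨?_, ?_, ?_⟩
    · rintro _ ⟨_, ⟨m, rfl⟩, rfl⟩
      exact ⟨M.x n m, (M.xz n m).symm⟩
    · rintro _ ⟨_, ⟨m, rfl⟩, rfl⟩
      exact ⟨M.y n m, (M.yz n m).symm⟩
    · rintro _ ⟨_, ⟨m, rfl⟩, rfl⟩
      exact ⟨M.z n m, rfl⟩

/-- The quotient by `z`. -/
noncomputable def qz (M : GrMod k t) : GrMod k t := M.quot M.zfam M.zfam_stable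

theorem qz_kill (M : GrMod k t) (n : ℕ) (m : M.qz.M n) : M.qz.z n m = 0 := by
  obtain ⟨m, rfl⟩ := Submodule.mkQ_surjective _ m
  change (M.zfam (n + 1)).mkQ (M.z n m) = 0
  rw [Submodule.mkQ_apply, Submodule.Quotient.mk_eq_zero]
  exact ⟨m, rfl⟩

theorem dim_qz_zero (M : GrMod k t) : M.qz.dim 0 = M.dim 0 := by
  have := M.dim_quot M.zfam M.zfam_stable 0
  rw [show M.zfam 0 = ⊥ from rfl, finrank_bot, add_zero] at this
  exact this

theorem dim_qz_succ (M : GrMod k t) (hz : ∀ n, Function.Injective (M.z n)) (n : ℕ) :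
    M.qz.dim (n + 1) + M.dim n = M.dim (n + 1) := by
  have := M.dim_quot M.zfam M.zfam_stable (n + 1)
  rw [show M.zfam (n + 1) = LinearMap.range (M.z n) from rfl,
    LinearMap.finrank_range_of_inj (hz n)] at this
  exact this

/-- If `z` is injective: the dimension is eventually `q n + c`, `3 ∣ q`, and `3 ∣ c` if
`q = 0`. -/
theorem zinj (H : OpsDvd k t) (M : GrMod k t) (h0 : M.Gen0)
    (hz : ∀ n, Function.Injective (M.z n)) :
    ∃ (q : ℕ) (c : ℤ), 3 ∣ q ∧ (q = 0 → 3 ∣ c) ∧ (∀ n, 2 ≤ n → q ≤ M.qz.dim n) ∧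
      ∀ᶠ n : ℕ in atTop, (M.dim n : ℤ) = q * n + c := by
  obtain ⟨q, hq, hle, hev⟩ := kill H M.qz (M.gen0_quot h0 _ _) M.qz_kill
  obtain ⟨N, hN⟩ := eventually_atTop.1 hev
  have hlin : ∀ n, (M.dim (N + n) : ℤ) = q * n + M.dim N := by
    intro n
    induction n with
    | zero => simp
    | succ n ih =>
      have := M.dim_qz_succ hz (N + n)
      rw [hN _ (by omega)] at this
      rw [← add_assoc, ← this]; push_cast; rw [ih]; ring
  refine ⟨q, M.dim N - q * N, hq, ?_, hle, ?_⟩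
  · rintro rfl
    simp only [Nat.cast_zero, zero_mul, sub_zero]
    have : 3 ∣ (M.shift N).dim 0 := by
      refine dvd_of_bijective (M.shift N) (M.shift N).z H (fun n => ?_) (Or.inr rfl)
      refine ⟨hz _, ?_⟩
      refine (LinearMap.injective_iff_surjective_of_finrank_eq_finrank ?_).1 (hz _)
      change M.dim (N + n) = M.dim (N + n + 1)
      have h1 := hlin n
      have h2 := hlin (n + 1)
      simp only [Nat.cast_zero, zero_mul, zero_add] at h1 h2
      rw [← add_assoc] at h2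
      exact_mod_cast h1.trans h2.symm
    exact_mod_cast this
  · refine eventually_atTop.2 ⟨N, fun n hn => ?_⟩
    obtain ⟨m, rfl⟩ := Nat.exists_eq_add_of_le hn
    rw [hlin]; push_cast; ring

end GrMod

end W875.NK
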