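import Pool.Agent.W875.NK.Kill
import Pool.Agent.W875.NK.Spec

/-! # The Hilbert function of a graded module over the cubic modulo `3` -/

namespace W875.NK

open Filter

namespace GrMod

variable {k : Type} [Field k] {t : k}

theorem quot_z_eq_zero (M : GrMod k t) (K : ∀ n, Submodule k (M.M n)) (hK : M.Stable K) (n : ℕ)
    (m : M.M n) : (M.quot K hK).z n ((K n).mkQ m) = 0 ↔ M.z n m ∈ K (n + 1) :=
  Submodule.Quotient.mk_eq_zero (K (n + 1))

/-- The part of `K` generated in degrees `≤ j`. -/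
def gfam (M : GrMod k t) (K : ∀ n, Submodule k (M.M n)) (j : ℕ) : ∀ n, Submodule k (M.M n)
  | 0 => K 0
  | n + 1 => if n + 1 ≤ j then K (n + 1) else
      (gfam M K j n).map (M.x n) ⊔ (gfam M K j n).map (M.y n) ⊔ (gfam M K j n).map (M.z n)

section
variable (M : GrMod k t) (K : ∀ n, Submodule k (M.M n)) (hK : M.Stable K)
include hK

theorem gfam_of_le (j : ℕ) : ∀ n, n ≤ j → M.gfam K j n = K n := by
  intro n hn
  cases n with
  | zero => rfl
  | succ n => rw [gfam, if_pos hn]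

theorem gfam_le (j n : ℕ) : M.gfam K j n ≤ K n := by
  induction n with
  | zero => exact le_rfl
  | succ n ih =>
    rw [gfam]
    split_ifs
    · exact le_rfl
    · exact sup_le (sup_le ((Submodule.map_mono ih).trans (hK n).1)
        ((Submodule.map_mono ih).trans (hK n).2.1)) ((Submodule.map_mono ih).trans (hK n).2.2)

theorem gfam_mono (j n : ℕ) : M.gfam K j n ≤ M.gfam K (j + 1) n := by
  induction n with
  | zero => exact le_rfl
  | succ n ih =>
    by_cases h : n + 1 ≤ j + 1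
    · rw [gfam_of_le M K hK (j + 1) (n + 1) h]
      exact gfam_le M K hK j (n + 1)
    · rw [gfam, gfam, if_neg h, if_neg (by omega)]
      exact sup_le_sup (sup_le_sup (Submodule.map_mono ih) (Submodule.map_mono ih))
        (Submodule.map_mono ih)

theorem gfam_stable (j : ℕ) : M.Stable (M.gfam K j) := by
  intro n
  by_cases h : n + 1 ≤ j
  · rw [gfam_of_le M K hK j n (by omega), gfam_of_le M K hK j (n + 1) h]
    exact hK n
  · rw [show M.gfam K j (n + 1) = (M.gfam K j n).map (M.x n) ⊔ (M.gfam K j n).map (M.y n) ⊔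
      (M.gfam K j n).map (M.z n) by rw [gfam, if_neg h]]
    exact ⟨le_sup_of_le_left le_sup_left, le_sup_of_le_left le_sup_right, le_sup_right⟩

theorem event_gen (hC : PartC) (h0 : M.Gen0) : ∃ D, ∀ n, D ≤ n →
    K (n + 1) ≤ (K n).map (M.x n) ⊔ (K n).map (M.y n) ⊔ (K n).map (M.z n) := by
  obtain ⟨J, hJ⟩ := hC k M.M M.x M.y M.z M.xy M.xz M.yz h0 (M.gfam K)
    (gfam_mono M K hK) (fun j n => (gfam_stable M K hK j n).1)
    (fun j n => (gfam_stable M K hK j n).2.1) (fun j n => (gfam_stable M K hK j n).2.2)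
  refine ⟨J, fun n hn => ?_⟩
  have h1 : K (n + 1) = M.gfam K J (n + 1) := by
    rw [← hJ (n + 1) (by omega), gfam_of_le M K hK (n + 1) (n + 1) le_rfl]
  have h2 : K n = M.gfam K J n := by
    rw [← hJ n hn, gfam_of_le M K hK n n le_rfl]
  rw [h1, gfam, if_neg (by omega), h2]

end

/-- The elements killed by `z ^ j`. -/
def ztor (M : GrMod k t) : ℕ → ∀ n, Submodule k (M.M n)
  | 0, _ => ⊥
  | j + 1, n => (ztor M j (n + 1)).comap (M.z n)

theorem ztor_stable (M : GrMod k t) (j : ℕ) : M.Stable (M.ztor j) := by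
  induction j with
  | zero => exact fun n => ⟨by simp [ztor], by simp [ztor], by simp [ztor]⟩
  | succ j ih =>
    refine fun n => ⟨?_, ?_, ?_⟩
    · rintro _ ⟨m, hm, rfl⟩
      change M.z (n + 1) (M.x n m) ∈ M.ztor j (n + 2)
      rw [← M.xz]
      exact (ih (n + 1)).1 ⟨_, hm, rfl⟩
    · rintro _ ⟨m, hm, rfl⟩
      change M.z (n + 1) (M.y n m) ∈ M.ztor j (n + 2)
      rw [← M.yz]
      exact (ih (n + 1)).2.1 ⟨_, hm, rfl⟩
    · rintro _ ⟨m, hm, rfl⟩
      exact (ih (n + 1)).2.2 ⟨_, hm, rfl⟩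

theorem ztor_mono (M : GrMod k t) (j : ℕ) : ∀ n, M.ztor j n ≤ M.ztor (j + 1) n := by
  induction j with
  | zero => exact fun n => bot_le
  | succ j ih => exact fun n => Submodule.comap_mono (ih (n + 1))

theorem ztor_lin3 (H : OpsDvd k t) (hC : PartC) (M : GrMod k t) (h0 : M.Gen0) (j : ℕ) :
    Lin3 fun n => Module.finrank k (M.ztor j n) := by
  induction j with
  | zero =>
    refine Lin3.const (dvd_zero 3) (Eventually.of_forall fun n => ?_)
    rw [show M.ztor 0 n = ⊥ from rfl, finrank_bot]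
  | succ j ih =>
    have hg := event_gen M (M.ztor (j + 1)) (M.ztor_stable (j + 1)) hC h0
    set A := M.sub (M.ztor (j + 1)) (M.ztor_stable (j + 1)) hg with hA
    have hB : A.Stable (fun n => (M.ztor j n).comap (M.ztor (j + 1) n).subtype) := by
      refine fun n => ⟨?_, ?_, ?_⟩
      · rintro _ ⟨m, hm, rfl⟩
        exact (M.ztor_stable j n).1 ⟨_, hm, rfl⟩
      · rintro _ ⟨m, hm, rfl⟩
        exact (M.ztor_stable j n).2.1 ⟨_, hm, rfl⟩
      · rintro _ ⟨m, hm, rfl⟩
        exact (M.ztor_stable j n).2.2 ⟨_, hm, rfl⟩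
    refine Lin3.add (kill_lin3 H (A.quot _ hB) ?_) ih (Eventually.of_forall fun n => ?_)
    · intro n m
      obtain ⟨m, rfl⟩ := Submodule.mkQ_surjective _ m
      exact (A.quot_z_eq_zero _ hB n m).2 m.2
    · have e := LinearEquiv.finrank_eq (Submodule.comapSubtypeEquivOfLe (M.ztor_mono j n))
      have := A.dim_quot _ hB n
      beta_reduce
      rw [← e]
      exact this

/-- The submodule generated by an element of degree `0`. -/
def cyc (M : GrMod k t) (m : M.M 0) : ∀ n, Submodule k (M.M n)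
  | 0 => Submodule.span k {m}
  | n + 1 => (cyc M m n).map (M.x n) ⊔ (cyc M m n).map (M.y n) ⊔ (cyc M m n).map (M.z n)

theorem cyc_stable (M : GrMod k t) (m : M.M 0) : M.Stable (M.cyc m) := fun _ =>
  ⟨le_sup_of_le_left le_sup_left, le_sup_of_le_left le_sup_right, le_sup_right⟩

/-- The cyclic submodule. -/
def cycMod (M : GrMod k t) (m : M.M 0) : GrMod k t :=
  M.sub (M.cyc m) (M.cyc_stable m) ⟨0, fun _ _ => le_rfl⟩

theorem cycMod_gen0 (M : GrMod k t) (m : M.M 0) : (M.cycMod m).Gen0 := by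
  intro n
  rw [eq_top_iff]
  rintro ⟨v, hv⟩ -
  obtain ⟨a, ha, c, hc, rfl⟩ := Submodule.mem_sup.1 hv
  obtain ⟨a, ha', b, hb, rfl⟩ := Submodule.mem_sup.1 ha
  obtain ⟨a, ha1, rfl⟩ := ha'
  obtain ⟨b, hb1, rfl⟩ := hb
  obtain ⟨c, hc1, rfl⟩ := hc
  exact Submodule.mem_sup.2 ⟨_, Submodule.mem_sup.2 ⟨_, ⟨⟨a, ha1⟩, rfl⟩, _, ⟨⟨b, hb1⟩, rfl⟩,
    rfl⟩, _, ⟨⟨c, hc1⟩, rfl⟩, rfl⟩

theorem cycMod_zinj (M : GrMod k t) (m : M.M 0) (hz : ∀ n, Function.Injective (M.z n)) (n : ℕ) :
    Function.Injective ((M.cycMod m).z n) := by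
  intro a b h
  exact Subtype.ext (hz n (congrArg Subtype.val h))

theorem cycMod_dim_zero (M : GrMod k t) (m : M.M 0) : (M.cycMod m).dim 0 ≤ 1 :=
  (finrank_span_le_card ({m} : Set (M.M 0))).trans (by simp)

theorem iSup_cyc {ι : Type} (M : GrMod k t) (h0 : M.Gen0) (b : ι → M.M 0)
    (hb : Submodule.span k (Set.range b) = ⊤) (n : ℕ) : ⨆ i, M.cyc (b i) n = ⊤ := by
  induction n with
  | zero =>
    rw [← hb, Submodule.span_range_eq_iSup]
    rfl
  | succ n ih =>
    have : ⨆ i, M.cyc (b i) (n + 1) = (⨆ i, M.cyc (b i) n).map (M.x n) ⊔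
        (⨆ i, M.cyc (b i) n).map (M.y n) ⊔ (⨆ i, M.cyc (b i) n).map (M.z n) := by
      rw [Submodule.map_iSup, Submodule.map_iSup, Submodule.map_iSup, ← iSup_sup_eq,
        ← iSup_sup_eq]
      rfl
    rw [this, ih, Submodule.map_top, Submodule.map_top, Submodule.map_top]
    exact h0 n

theorem finrank_iSup_le {V : Type} [AddCommGroup V] [Module k V] [FiniteDimensional k V]
    {s : ℕ} (K : Fin s → Submodule k V) :
    Module.finrank k (⨆ i, K i : Submodule k V) ≤ ∑ i, Module.finrank k (K i) := by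
  classical
  have : ∀ T : Finset (Fin s), Module.finrank k (⨆ i ∈ T, K i : Submodule k V) ≤
      ∑ i ∈ T, Module.finrank k (K i) := by
    intro T
    induction T using Finset.induction_on with
    | empty => simp
    | insert a T ha ih =>
      rw [Finset.iSup_insert, Finset.sum_insert ha]
      exact (Submodule.finrank_add_le_finrank_add_finrank _ _).trans (by omega)
  have h := this Finset.univ
  have e : (⨆ i ∈ Finset.univ, K i) = ⨆ i, K i := by simp
  rw [e] at h
  exact h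

/-- A cyclic module on which `z` is injective and which is not bounded has dimension `3 n` in
degree `n ≥ 1`. -/
theorem cyclic_dim (H : OpsDvd k t) (N : GrMod k t) (h0 : N.Gen0)
    (hz : ∀ n, Function.Injective (N.z n)) (h1 : N.dim 0 ≤ 1)
    (hunb : ¬ ∃ C, ∀ n, N.dim n ≤ C) : ∀ n, N.dim (n + 1) = 3 * (n + 1) := by
  obtain ⟨q, c, hq, -, hle, hev⟩ := zinj H N h0 hz
  have hq0 : q ≠ 0 := by
    rintro rfl
    apply hunb
    obtain ⟨n₀, hn₀⟩ := eventually_atTop.1 hev
    refine ⟨c.toNat + ∑ i ∈ Finset.range n₀, N.dim i, fun n => ?_⟩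
    rcases lt_or_ge n n₀ with h | h
    · have := Finset.single_le_sum (f := fun i => N.dim i) (fun i _ => Nat.zero_le _)
        (Finset.mem_range.2 h)
      omega
    · have := hn₀ n h
      simp only [Nat.cast_zero, zero_mul, zero_add] at this
      omega
  have hQ0 : N.qz.Gen0 := N.gen0_quot h0 _ _
  have hkill := N.qz_kill
  have hrz : ∀ n, LinearMap.range (N.qz.z n) = ⊥ := fun n => by
    rw [LinearMap.range_eq_bot]
    ext m
    exact hkill n m
  have htop : ∀ n, LinearMap.range (N.qz.x n) ⊔ LinearMap.range (N.qz.y n) = ⊤ := fun n => by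
    have := hQ0 n
    rwa [hrz, sup_bot_eq] at this
  have htwo : ∀ n, N.qz.dim (n + 1) ≤ 2 * N.qz.dim n := by
    intro n
    have h2 := Submodule.finrank_add_le_finrank_add_finrank (LinearMap.range (N.qz.x n))
      (LinearMap.range (N.qz.y n))
    rw [htop, finrank_top] at h2
    have h3 := LinearMap.finrank_range_le (N.qz.x n)
    have h4 := LinearMap.finrank_range_le (N.qz.y n)
    simp only [dim]
    omega
  have hthree : N.qz.dim 2 ≤ 3 * N.qz.dim 0 := by
    have hcov : LinearMap.range (N.qz.x 1 ∘ₗ N.qz.x 0) ⊔ LinearMap.range (N.qz.x 1 ∘ₗ N.qz.y 0) ⊔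
        LinearMap.range (N.qz.y 1 ∘ₗ N.qz.y 0) = ⊤ := by
      rw [eq_top_iff, ← htop 1]
      have hmem : ∀ m : N.qz.M 1, ∃ a b, m = N.qz.x 0 a + N.qz.y 0 b := by
        intro m
        have : m ∈ LinearMap.range (N.qz.x 0) ⊔ LinearMap.range (N.qz.y 0) := by
          rw [htop 0]; trivial
        obtain ⟨_, ⟨a, rfl⟩, _, ⟨b, rfl⟩, rfl⟩ := Submodule.mem_sup.1 this
        exact ⟨a, b, rfl⟩
      refine sup_le ?_ ?_
      · rintro _ ⟨m, rfl⟩
        obtain ⟨a, b, rfl⟩ := hmem m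
        rw [map_add]
        exact Submodule.add_mem _
          (Submodule.mem_sup_left (Submodule.mem_sup_left ⟨a, rfl⟩))
          (Submodule.mem_sup_left (Submodule.mem_sup_right ⟨b, rfl⟩))
      · rintro _ ⟨m, rfl⟩
        obtain ⟨a, b, rfl⟩ := hmem m
        rw [map_add]
        exact Submodule.add_mem _
          (Submodule.mem_sup_left (Submodule.mem_sup_right ⟨a, N.qz.xy 0 a⟩))
          (Submodule.mem_sup_right ⟨b, rfl⟩)
    have h2 := Submodule.finrank_add_le_finrank_add_finrank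
      (LinearMap.range (N.qz.x 1 ∘ₗ N.qz.x 0) ⊔ LinearMap.range (N.qz.x 1 ∘ₗ N.qz.y 0))
      (LinearMap.range (N.qz.y 1 ∘ₗ N.qz.y 0))
    rw [hcov, finrank_top] at h2
    have h3 := Submodule.finrank_add_le_finrank_add_finrank
      (LinearMap.range (N.qz.x 1 ∘ₗ N.qz.x 0)) (LinearMap.range (N.qz.x 1 ∘ₗ N.qz.y 0))
    have h4 := LinearMap.finrank_range_le (N.qz.x 1 ∘ₗ N.qz.x 0)
    have h5 := LinearMap.finrank_range_le (N.qz.x 1 ∘ₗ N.qz.y 0)
    have h6 := LinearMap.finrank_range_le (N.qz.y 1 ∘ₗ N.qz.y 0)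
    change N.qz.dim 2 ≤ _ at h2
    change _ ≤ N.qz.dim 0 at h4
    change _ ≤ N.qz.dim 0 at h5
    change _ ≤ N.qz.dim 0 at h6
    omega
  have hd0 : N.qz.dim 0 = N.dim 0 := N.dim_qz_zero
  have hge : ∀ n, 2 ≤ n → 3 ≤ N.qz.dim n := fun n hn => (Nat.le_of_dvd (by omega) hq).trans
    (hle n hn)
  have hdec : ∀ n, N.qz.dim (n + 2) ≤ 3 := by
    intro n
    induction n with
    | zero => show N.qz.dim 2 ≤ 3; omega
    | succ n ih =>
      have := N.qz.dim_succ_le_of_kill hQ0 hkill n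
      rw [show n + 1 + 2 = n + 3 by ring]
      omega
  have e2 : ∀ n, N.qz.dim (n + 2) = 3 := fun n => le_antisymm (hdec n) (hge _ (by omega))
  have e20 := e2 0
  have t1 := htwo 0
  have t2 := htwo 1
  simp only [zero_add] at e20 t1 t2
  norm_num at t2
  have s0 := N.dim_qz_succ hz 0
  simp only [zero_add] at s0
  intro n
  induction n with
  | zero => simp only [zero_add]; omega
  | succ n ih =>
    have s1 := N.dim_qz_succ hz (n + 1)
    have := e2 n
    rw [show n + 1 + 1 = n + 2 by ring] at s1 ⊢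
    omega

theorem bound_of_eventually (d : ℕ → ℕ) (a : ℕ) (c : ℤ)
    (h : ∀ᶠ n : ℕ in atTop, (d n : ℤ) = a * n + c) : ∃ C : ℕ, ∀ n, d n ≤ a * n + C := by
  obtain ⟨n₀, hn₀⟩ := eventually_atTop.1 h
  refine ⟨c.toNat + ∑ i ∈ Finset.range n₀, d i, fun n => ?_⟩
  rcases lt_or_ge n n₀ with h | h
  · have := Finset.single_le_sum (f := fun i => d i) (fun i _ => Nat.zero_le _)
      (Finset.mem_range.2 h)
    omega
  · have h1 := hn₀ n h
    have h2 : (d n : ℤ) ≤ ((a * n : ℕ) : ℤ) + c.toNat := by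
      rw [h1]; push_cast
      have := Int.self_le_toNat c
      omega
    have h3 : d n ≤ a * n + c.toNat := by exact_mod_cast h2
    omega

theorem main_gen0 (H : OpsDvd k t) (hC : PartC) : ∀ r : ℕ, ∀ M : GrMod k t, M.Gen0 →
    (∃ C, ∀ n, M.dim n ≤ r * n + C) → Lin3 M.dim := by
  intro r
  induction r using Nat.strong_induction_on with
  | _ r ih =>
  intro M h0 ⟨C, hCb⟩
  obtain ⟨J, hJ⟩ := hC k M.M M.x M.y M.z M.xy M.xz M.yz h0 M.ztor
    (M.ztor_mono) (fun j n => (M.ztor_stable j n).1)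
    (fun j n => (M.ztor_stable j n).2.1) (fun j n => (M.ztor_stable j n).2.2)
  have hlin := ztor_lin3 H hC M h0 J
  set M' := M.quot (M.ztor J) (M.ztor_stable J) with hM'
  have hdim : ∀ n, M'.dim n + Module.finrank k (M.ztor J n) = M.dim n :=
    M.dim_quot _ _
  refine Lin3.add ?_ hlin (Eventually.of_forall hdim)
  have h0' : M'.Gen0 := M.gen0_quot h0 _ _
  have hz : ∀ n, Function.Injective (M'.z n) := by
    intro n
    rw [injective_iff_map_eq_zero]
    intro m hm
    obtain ⟨m, rfl⟩ := Submodule.mkQ_surjective _ m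
    have hm' := (M.quot_z_eq_zero _ (M.ztor_stable J) n m).1 hm
    refine (Submodule.Quotient.mk_eq_zero (M.ztor J n)).2 ?_
    rw [← hJ (J + 1) (by omega)]
    exact hm'
  obtain ⟨q, c, hq, hqc, -, hev⟩ := zinj H M' h0' hz
  by_cases hq0 : q = 0
  · subst hq0
    exact ⟨0, c, dvd_zero _, hqc rfl, by simpa using hev⟩
  have hq3 : 3 ≤ q := Nat.le_of_dvd (by omega) hq
  have hbnd : ∀ n, M'.dim n ≤ r * n + C := fun n => by
    have h1 := hdim n
    have h2 := hCb n
    omega
  obtain ⟨n₀, hn₀⟩ := eventually_atTop.1 hev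
  have hqr : q ≤ r := by
    by_contra hcon
    push Not at hcon
    have h1 := hn₀ (n₀ + (C - c + 1).toNat) (by omega)
    have h2 := hbnd (n₀ + (C - c + 1).toNat)
    have h2' : (M'.dim (n₀ + (C - c + 1).toNat) : ℤ) ≤ r * ((n₀ + (C - c + 1).toNat : ℕ) : ℤ) + C := by
      exact_mod_cast h2
    have h3 : ((r : ℤ) + 1) * ((n₀ + (C - c + 1).toNat : ℕ) : ℤ) ≤
        q * ((n₀ + (C - c + 1).toNat : ℕ) : ℤ) := by
      apply mul_le_mul_of_nonneg_right
      · exact_mod_cast hcon
      · positivity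
    have h4 : (C : ℤ) - c + 1 ≤ ((n₀ + (C - c + 1).toNat : ℕ) : ℤ) := by
      push_cast
      have := Int.self_le_toNat (C - c + 1)
      omega
    nlinarith
  -- a cyclic submodule that is not bounded
  let b := Module.finBasis k (M'.M 0)
  have hex : ∃ i, ¬ ∃ B, ∀ n, (M'.cycMod (b i)).dim n ≤ B := by
    by_contra hcon
    push Not at hcon
    choose B hB using hcon
    have hle : ∀ n, M'.dim n ≤ ∑ i, B i := by
      intro n
      have h1 := finrank_iSup_le (fun i => M'.cyc (b i) n)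
      rw [iSup_cyc M' h0' b b.span_eq n, finrank_top] at h1
      exact h1.trans (Finset.sum_le_sum fun i _ => hB i n)
    have h1 := hn₀ (n₀ + ((∑ i, B i : ℕ) - c + 1).toNat) (by omega)
    have h2 := hle (n₀ + ((∑ i, B i : ℕ) - c + 1).toNat)
    have h3 : ((n₀ + ((∑ i, B i : ℕ) - c + 1).toNat : ℕ) : ℤ) ≤
        q * ((n₀ + ((∑ i, B i : ℕ) - c + 1).toNat : ℕ) : ℤ) := by
      apply le_mul_of_one_le_left
      · positivity
      · exact_mod_cast (by omega : 1 ≤ q)
    have h4 := Int.self_le_toNat ((∑ i, B i : ℕ) - c + 1)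
    omega
  obtain ⟨i, hi⟩ := hex
  set N := M'.cycMod (b i) with hN
  have hNd := cyclic_dim H N (M'.cycMod_gen0 _) (M'.cycMod_zinj _ hz) (M'.cycMod_dim_zero _) hi
  have hNlin : Lin3 N.dim := by
    refine ⟨3, 0, dvd_rfl, dvd_zero _, eventually_atTop.2 ⟨1, fun n hn => ?_⟩⟩
    obtain ⟨m, rfl⟩ := Nat.exists_eq_add_of_le hn
    rw [add_comm 1 m, hNd]; push_cast; ring
  have hdim2 : ∀ n, (M'.quot (M'.cyc (b i)) (M'.cyc_stable _)).dim n + N.dim n = M'.dim n :=
    M'.dim_quot _ _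
  refine Lin3.add (ih (q - 3) (by omega) (M'.quot (M'.cyc (b i)) (M'.cyc_stable _))
    (M'.gen0_quot h0' _ _) ?_) hNlin (Eventually.of_forall hdim2)
  refine bound_of_eventually _ _ c (eventually_atTop.2 ⟨n₀ + 1, fun n hn => ?_⟩)
  have h1 := hn₀ n (by omega)
  have h2 := hdim2 n
  obtain ⟨m, rfl⟩ := Nat.exists_eq_add_of_le (show 1 ≤ n by omega)
  rw [add_comm 1 m] at *
  rw [hNd] at h2
  rw [Nat.cast_sub hq3]
  have h3 : ((M'.quot (M'.cyc (b i)) (M'.cyc_stable _)).dim (m + 1) : ℤ) + 3 * (m + 1) =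
      M'.dim (m + 1) := by exact_mod_cast h2
  rw [h1] at h3
  push_cast at h3 ⊢
  linarith

/-- Every graded module has an eventually linear Hilbert function `r n + c` with `3 ∣ r` and
`3 ∣ c`. -/
theorem lin3 (H : OpsDvd k t) (hC : PartC) (M : GrMod k t) : Lin3 M.dim := by
  obtain ⟨D, hD⟩ := M.exists_shift_gen0
  refine Lin3.of_shift D ?_
  change Lin3 (M.shift D).dim
  -- a crude linear bound
  have h0 := hD D le_rfl
  have key : ∃ r, ∃ C, ∀ n, (M.shift D).dim n ≤ r * n + C := by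
    obtain ⟨q, -, -, hev⟩ := kill H (M.shift D).qz ((M.shift D).gen0_quot h0 _ _)
      (M.shift D).qz_kill
    obtain ⟨B, hB⟩ := bound_of_eventually (M.shift D).qz.dim 0 q (by simpa using hev)
    refine ⟨B, (M.shift D).dim 0, fun n => ?_⟩
    induction n with
    | zero => omega
    | succ n ih =>
      have h1 := (M.shift D).dim_quot (M.shift D).zfam (M.shift D).zfam_stable (n + 1)
      have h2 := LinearMap.finrank_range_le ((M.shift D).z n)
      have h3 := hB (n + 1)
      change (M.shift D).qz.dim (n + 1) + Module.finrank k (LinearMap.range ((M.shift D).z n)) =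
        (M.shift D).dim (n + 1) at h1
      change _ ≤ (M.shift D).dim n at h2
      rw [mul_add, mul_one]
      omega
  obtain ⟨r, hr⟩ := key
  exact main_gen0 H hC r _ h0 hr

end GrMod

end W875.NK
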