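import Pool.Agent.W875.NK.Defs

/-! # Eventually linear functions, and the case where `y` or `z` is bijective -/

namespace W875.NK

open Filter

/-- Eventually of the form `r n + c` with `3 ∣ r` and `3 ∣ c`. -/
def Lin3 (d : ℕ → ℕ) : Prop :=
  ∃ r c : ℤ, 3 ∣ r ∧ 3 ∣ c ∧ ∀ᶠ n : ℕ in atTop, (d n : ℤ) = r * n + c

theorem Lin3.add {d e f : ℕ → ℕ} (hd : Lin3 d) (he : Lin3 e)
    (h : ∀ᶠ n in atTop, d n + e n = f n) : Lin3 f := by
  obtain ⟨r, c, hr, hc, h1⟩ := hd
  obtain ⟨r', c', hr', hc', h2⟩ := he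
  refine ⟨r + r', c + c', dvd_add hr hr', dvd_add hc hc', ?_⟩
  filter_upwards [h1, h2, h] with n a b e
  rw [← e]; push_cast; rw [a, b]; ring

theorem Lin3.of_shift {d : ℕ → ℕ} (D : ℕ) (h : Lin3 fun n => d (D + n)) : Lin3 d := by
  obtain ⟨r, c, hr, hc, h1⟩ := h
  refine ⟨r, c - r * D, hr, dvd_sub hc (Dvd.dvd.mul_right hr _), ?_⟩
  rw [eventually_atTop] at h1 ⊢
  obtain ⟨N, h1⟩ := h1
  refine ⟨N + D, fun n hn => ?_⟩
  have := h1 (n - D) (by omega)
  beta_reduce at this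
  rw [show D + (n - D) = n by omega] at this
  rw [this, Nat.cast_sub (by omega)]; ring

theorem Lin3.const {d : ℕ → ℕ} {c : ℕ} (hc : 3 ∣ c) (h : ∀ᶠ n in atTop, d n = c) : Lin3 d := by
  refine ⟨0, c, dvd_zero _, by exact_mod_cast hc, ?_⟩
  filter_upwards [h] with n hn
  rw [hn]; ring

/-- A sequence of natural numbers that is eventually antitone is eventually constant. -/
theorem eventually_const (d : ℕ → ℕ) (N : ℕ) (h : ∀ n, N ≤ n → d (n + 1) ≤ d n) :
    ∃ n₀, N ≤ n₀ ∧ ∀ n, n₀ ≤ n → d n = d n₀ := by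
  have hmono : ∀ n m, N ≤ n → n ≤ m → d m ≤ d n := by
    intro n m hn hnm
    induction m, hnm using Nat.le_induction with
    | base => exact le_rfl
    | succ m hm ih => exact (h m (by omega)).trans ih
  have hex : ∃ v, ∃ n, N ≤ n ∧ d n = v := ⟨_, N, le_rfl, rfl⟩
  classical
  obtain ⟨n₀, hn₀, hv⟩ := Nat.find_spec hex
  refine ⟨n₀, hn₀, fun n hn => le_antisymm (hmono n₀ n hn₀ hn) ?_⟩
  rw [hv]
  exact Nat.find_min' hex ⟨n, by omega, rfl⟩

namespace GrMod

variable {k : Type} [Field k] {t : k}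

/-- The statement of Part B for the given `k`, `t`. -/
def OpsDvd (k : Type) [Field k] (t : k) : Prop :=
  ∀ (V : Type) [AddCommGroup V] [Module k V] [FiniteDimensional k V]
    (a b c : Module.End k V) (_ : a * b = b * a) (_ : a * c = c * a) (_ : b * c = c * b)
    (_ : a ^ 3 + t • b ^ 3 + t ^ 2 • c ^ 3 + t • (a * b * c) = 0)
    (_ : b = 1 ∨ c = 1),
    3 ∣ Module.finrank k V

section
variable (M : GrMod k t) (u : ∀ n, M.M n →ₗ[k] M.M (n + 1))
  (hu : ∀ n, Function.Bijective (u n))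

/-- The operator `u⁻¹ w` in degree `n`. -/
noncomputable def op (hu : ∀ n, Function.Bijective (u n))
    (w : ∀ n, M.M n →ₗ[k] M.M (n + 1)) (n : ℕ) : Module.End k (M.M n) :=
  (LinearEquiv.ofBijective (u n) (hu n)).symm.toLinearMap ∘ₗ w n

theorem u_op (w : ∀ n, M.M n →ₗ[k] M.M (n + 1)) (n : ℕ) (m : M.M n) :
    u n (M.op u hu w n m) = w n m :=
  (LinearEquiv.ofBijective (u n) (hu n)).apply_symm_apply (w n m)

theorem op_u (w : ∀ n, M.M n →ₗ[k] M.M (n + 1)) (hc : ∀ n m, w (n + 1) (u n m) = u (n + 1) (w n m))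
    (n : ℕ) (m : M.M n) : M.op u hu w (n + 1) (u n m) = u n (M.op u hu w n m) := by
  apply (hu (n + 1)).1
  rw [M.u_op u hu, hc, M.u_op u hu]

theorem op_self (n : ℕ) : M.op u hu u n = 1 := by
  ext m
  apply (hu n).1
  rw [M.u_op u hu]; rfl

theorem dvd_of_bijective (H : OpsDvd k t) (hu : ∀ n, Function.Bijective (u n))
    (hy : u = M.y ∨ u = M.z) : 3 ∣ M.dim 0 := by
  have hcx : ∀ n m, M.x (n + 1) (u n m) = u (n + 1) (M.x n m) := by
    rcases hy with rfl | rfl
    · exact M.xy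
    · exact M.xz
  have hcy : ∀ n m, M.y (n + 1) (u n m) = u (n + 1) (M.y n m) := by
    rcases hy with rfl | rfl
    · exact fun n m => rfl
    · exact M.yz
  have hcz : ∀ n m, M.z (n + 1) (u n m) = u (n + 1) (M.z n m) := by
    rcases hy with rfl | rfl
    · exact fun n m => (M.yz n m).symm
    · exact fun n m => rfl
  have two : ∀ (w w' : ∀ n, M.M n →ₗ[k] M.M (n + 1))
      (_ : ∀ n m, w (n + 1) (u n m) = u (n + 1) (w n m)) (n : ℕ) (m : M.M n),
      w (n + 1) (w' n m) = u (n + 1) (u n (M.op u hu w n (M.op u hu w' n m))) := by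
    intro w w' hw n m
    rw [← M.u_op u hu w' n m, hw, ← M.u_op u hu w n]
  have three : ∀ (w w' w'' : ∀ n, M.M n →ₗ[k] M.M (n + 1))
      (_ : ∀ n m, w (n + 1) (u n m) = u (n + 1) (w n m))
      (_ : ∀ n m, w' (n + 1) (u n m) = u (n + 1) (w' n m)) (n : ℕ) (m : M.M n),
      w (n + 2) (w' (n + 1) (w'' n m)) = u (n + 2) (u (n + 1) (u n
        (M.op u hu w n (M.op u hu w' n (M.op u hu w'' n m))))) := by
    intro w w' w'' hw hw' n m
    rw [two w' w'' hw' n m, hw (n + 1), hw n, ← M.u_op u hu w n]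
  refine H (M.M 0) (M.op u hu M.x 0) (M.op u hu M.y 0) (M.op u hu M.z 0) ?_ ?_ ?_ ?_ ?_
  · ext m
    apply (hu 0).1; apply (hu 1).1
    simp only [Module.End.mul_apply]
    rw [← two M.x M.y hcx 0 m, ← two M.y M.x hcy 0 m]
    exact M.xy 0 m
  · ext m
    apply (hu 0).1; apply (hu 1).1
    simp only [Module.End.mul_apply]
    rw [← two M.x M.z hcx 0 m, ← two M.z M.x hcz 0 m]
    exact M.xz 0 m
  · ext m
    apply (hu 0).1; apply (hu 1).1
    simp only [Module.End.mul_apply]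
    rw [← two M.y M.z hcy 0 m, ← two M.z M.y hcz 0 m]
    exact M.yz 0 m
  · ext m
    apply (hu 0).1; apply (hu 1).1; apply (hu 2).1
    simp only [LinearMap.add_apply, LinearMap.smul_apply, map_add, map_smul,
      LinearMap.zero_apply, map_zero, pow_succ, pow_zero, one_mul, Module.End.mul_apply]
    have e1 := three M.x M.x M.x hcx hcx 0 m
    have e2 := three M.y M.y M.y hcy hcy 0 m
    have e3 := three M.z M.z M.z hcz hcz 0 m
    have e4 := three M.x M.y M.z hcx hcy 0 m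
    have e := M.eqn 0 m
    rw [e1, e2, e3, e4] at e
    have h2 : t ^ 2 = t * t := by ring
    rw [h2] at e
    simpa [mul_smul] using e
  · rcases hy with rfl | rfl
    · exact Or.inl (M.op_self _ hu 0)
    · exact Or.inr (M.op_self _ hu 0)

end

end GrMod

end W875.NK
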