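import Mathlib

/-! # Definitions for the noncommutative Künneth conjecture over `𝔽₃(t)` -/

namespace W875.NK.St

open CategoryTheory MonoidalCategory

section modules

variable {k : Type} [Field k]

/-- The value of the cubic form `x³ + t y³ + t² z³ + t x y z` at `x = X 0`, `y = X 1`,
`z = X 2`. -/
def form {A : Type} [Ring A] [Module k A] (t : k) (X : Fin 3 → A) : A :=
  X 0 ^ 3 + t • X 1 ^ 3 + t ^ 2 • X 2 ^ 3 + t • (X 0 * X 1 * X 2)

/-- Three commuting operators which satisfy the equation of the cubic. -/
def OnCubic {T : Type} [AddCommGroup T] [Module k T] (t : k) (X : Fin 3 → Module.End k T) :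
    Prop :=
  (∀ i j, X i * X j = X j * X i) ∧ form t X = 0

/-- A finitely generated graded module over `k[x, y, z] / (x³ + t y³ + t² z³ + t x y z)`: it
presents a coherent sheaf on the plane cubic `C`. -/
structure Mod (t : k) where
  /-- the module -/
  T : Type
  [acg : AddCommGroup T]
  [mod : Module k T]
  /-- multiplication by the three coordinates -/
  X : Fin 3 → Module.End k T
  onCubic : OnCubic t X
  /-- the homogeneous pieces -/
  D : ℕ → Submodule k T
  fin : ∀ n, FiniteDimensional k (D n)
  internal : DirectSum.IsInternal D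
  map_le : ∀ n i, (D n).map (X i) ≤ D (n + 1)
  gen : ∃ N, ∀ n, N ≤ n → D (n + 1) = ⨆ i, (D n).map (X i)

attribute [instance] Mod.acg Mod.mod

/-- A finitely generated bigraded module over the tensor square of the homogeneous coordinate
ring of the plane cubic `C`: it presents a coherent sheaf on `C × C`. -/
structure BiMod (t : k) where
  /-- the module -/
  T : Type
  [acg : AddCommGroup T]
  [mod : Module k T]
  /-- multiplication by the coordinates of the first factor -/
  X : Fin 3 → Module.End k T
  /-- multiplication by the coordinates of the second factor -/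
  Y : Fin 3 → Module.End k T
  onCubicX : OnCubic t X
  onCubicY : OnCubic t Y
  comm : ∀ i j, X i * Y j = Y j * X i
  /-- the bihomogeneous pieces -/
  D : ℕ → ℕ → Submodule k T
  fin : ∀ a b, FiniteDimensional k (D a b)
  internal : DirectSum.IsInternal fun p : ℕ × ℕ => D p.1 p.2
  map_leX : ∀ a b i, (D a b).map (X i) ≤ D (a + 1) b
  map_leY : ∀ a b i, (D a b).map (Y i) ≤ D a (b + 1)
  genX : ∃ N, ∀ a b, N ≤ a → D (a + 1) b = ⨆ i, (D a b).map (X i)
  genY : ∃ N, ∀ a b, N ≤ b → D a (b + 1) = ⨆ i, (D a b).map (Y i)

attribute [instance] BiMod.acg BiMod.mod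

/-- The subspace spanned by the elements `x m - y m`, where `x` is a coordinate of the first
factor and `y` the same coordinate of the second factor. -/
def BiMod.rel {t : k} (E : BiMod t) : Submodule k E.T := ⨆ i, LinearMap.range (E.X i - E.Y i)

/-- The part of degree `n` of the restriction `E / (x m - y m)` of `E` to the diagonal. -/
def BiMod.diag {t : k} (E : BiMod t) (n : ℕ) : Submodule k (E.T ⧸ E.rel) :=
  (⨆ a, ⨆ b, ⨆ _ : a + b = n, E.D a b).map E.rel.mkQ

/-- The Hilbert function of a graded vector space is `r n + c` for large `n`. If `D` presents a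
coherent sheaf on the cubic, then `c` is its Euler characteristic. -/
def IsChi {T : Type} [AddCommGroup T] [Module k T] (D : ℕ → Submodule k T) (c : ℤ) : Prop :=
  ∃ r : ℤ, ∃ N : ℕ, ∀ n, N ≤ n → (Module.finrank k (D n) : ℤ) = r * n + c

end modules

section categories

universe v u

variable {𝒩 : Type u} [Category.{v} 𝒩] [MonoidalCategory 𝒩] {K : Type} [Field K]

/-- The multiplication `ω(X) × ω(Y) → ω(X ⊗ Y)` of a monoidal functor `ω`. -/
def mul (F : 𝒩 ⥤ ModuleCat.{0} K) [F.Monoidal] {X Y : 𝒩} (v : F.obj X) (w : F.obj Y) :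
    F.obj (X ⊗ Y) :=
  (Functor.LaxMonoidal.μ F X Y).hom (v ⊗ₜ[K] w)

/-- The trace of an endomorphism of an object `A` with a dual `B`. -/
def trace [SymmetricCategory 𝒩] (A B : 𝒩) [ExactPairing A B] (f : A ⟶ A) : 𝟙_ 𝒩 ⟶ 𝟙_ 𝒩 :=
  η_ A B ≫ f ▷ B ≫ (β_ A B).hom ≫ ε_ A B

variable (𝒩 K) in
/-- A symmetric monoidal additive functor to super vector spaces over `K`: a monoidal functor to
vector spaces, all of whose values are split in an even and an odd part (`odd X` is the projector
onto the odd part, `1 - odd X` the one onto the even part), naturally and compatibly with tensor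
products, such that the symmetry goes to the Koszul-signed symmetry
`v ⊗ w ↦ (-1) ^ (|v| |w|) w ⊗ v`. -/
structure SuperFunctor [SymmetricCategory 𝒩] [Preadditive 𝒩] where
  /-- the underlying functor -/
  F : 𝒩 ⥤ ModuleCat.{0} K
  [monoidal : F.Monoidal]
  [additive : F.Additive]
  /-- the projector onto the odd part -/
  odd : ∀ X, Module.End K (F.obj X)
  odd_idem : ∀ X, odd X * odd X = odd X
  odd_nat : ∀ {X Y : 𝒩} (f : X ⟶ Y) v, odd Y ((F.map f).hom v) = (F.map f).hom (odd X v)
  odd_unit : odd (𝟙_ 𝒩) = 0
  odd_tensor : ∀ X Y (v : F.obj X) (w : F.obj Y), odd (X ⊗ Y) (mul F v w) =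
    mul F (odd X v) (w - odd Y w) + mul F (v - odd X v) (odd Y w)
  braid : ∀ X Y (v : F.obj X) (w : F.obj Y), (F.map (β_ X Y).hom).hom (mul F v w) =
    mul F w v - (2 : K) • mul F (odd Y w) (odd X v)

attribute [instance] SuperFunctor.monoidal SuperFunctor.additive

namespace SuperFunctor

variable [SymmetricCategory 𝒩] [Preadditive 𝒩] (ω : SuperFunctor 𝒩 K) (A : 𝒩)

/-- The Künneth projector of `ω(A)` onto the even part. -/
def even : Module.End K (ω.F.obj A) := 1 - ω.odd A

/-- The dimension of the even part of `ω(A)`. -/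
noncomputable def evenDim : ℕ := Module.finrank K (LinearMap.range (ω.even A))

/-- The dimension of the odd part of `ω(A)`. -/
noncomputable def oddDim : ℕ := Module.finrank K (LinearMap.range (ω.odd A))

/-- An endomorphism of `ω(A)` is algebraic if it is a `K`-linear combination of endomorphisms
induced by endomorphisms of `A`. -/
def Algebraic (g : Module.End K (ω.F.obj A)) : Prop :=
  g ∈ Submodule.span K (Set.range fun f : A ⟶ A => (ω.F.map f).hom)

end SuperFunctor

end categories

end W875.NK.St
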